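import Pool.Agent.R253.TI.Defs

/-!
Averages over generalised arithmetic progressions.
-/

namespace Pool.Agent.R253.TI

open Finset

/-- Iterated averages over the progressions `x - n a`, `0 ≤ n < M`. -/
noncomputable def Avg (M : ℕ) : List UnitAddCircle → (UnitAddCircle → ℂ) → UnitAddCircle → ℂ
  | [], h => h
  | (a :: l), h => fun x => (M : ℂ)⁻¹ * ∑ n ∈ range M, Avg M l h (x - n • a)

/-- The points involved. -/
noncomputable def pts (M : ℕ) : List UnitAddCircle → List UnitAddCircle
  | [] => [0]
  | (a :: l) => (List.range M).flatMap fun n => (pts M l).map fun p => n • a + p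

theorem length_pts (M : ℕ) (l : List UnitAddCircle) : (pts M l).length = M ^ l.length := by
  induction l with
  | nil => simp [pts]
  | cons a l ih =>
    simp only [pts, List.length_flatMap, List.length_map, ih, List.length_cons, pow_succ]
    simp [mul_comm]

theorem Avg_sub (M : ℕ) (l : List UnitAddCircle) (h1 h2 : UnitAddCircle → ℂ) :
    ∀ x, Avg M l (fun t => h1 t - h2 t) x = Avg M l h1 x - Avg M l h2 x := by
  induction l with
  | nil => intro x; rfl
  | cons a l ih =>
    intro x
    simp only [Avg, ih]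
    rw [sum_sub_distrib, mul_sub]

theorem Avg_add (M : ℕ) (l : List UnitAddCircle) (h1 h2 : UnitAddCircle → ℂ) :
    ∀ x, Avg M l (fun t => h1 t + h2 t) x = Avg M l h1 x + Avg M l h2 x := by
  induction l with
  | nil => intro x; rfl
  | cons a l ih =>
    intro x
    simp only [Avg, ih]
    rw [sum_add_distrib, mul_add]

theorem avg_bound {M : ℕ} (hM : 0 < M) (c : ℝ) (u : ℕ → ℂ) (hu : ∀ n, ‖u n‖ ≤ c) :
    ‖(M : ℂ)⁻¹ * ∑ n ∈ range M, u n‖ ≤ c := by
  rw [norm_mul, norm_inv, Complex.norm_natCast]
  have h1 : ‖∑ n ∈ range M, u n‖ ≤ M * c := by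
    calc ‖∑ n ∈ range M, u n‖ ≤ ∑ n ∈ range M, ‖u n‖ := norm_sum_le _ _
      _ ≤ ∑ n ∈ range M, c := sum_le_sum fun n _ => hu n
      _ = M * c := by simp
  have hM' : (0 : ℝ) < M := by exact_mod_cast hM
  calc (M : ℝ)⁻¹ * ‖∑ n ∈ range M, u n‖ ≤ (M : ℝ)⁻¹ * (M * c) := by
        apply mul_le_mul_of_nonneg_left h1 (by positivity)
    _ = c := by field_simp

theorem Avg_bound {M : ℕ} (hM : 0 < M) (l : List UnitAddCircle) (h : UnitAddCircle → ℂ) (c : ℝ)
    (hc : ∀ x, ‖h x‖ ≤ c) : ∀ x, ‖Avg M l h x‖ ≤ c := by
  induction l with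
  | nil => exact hc
  | cons a l ih =>
    intro x
    exact avg_bound hM c _ fun n => ih _

theorem Avg_translate (M : ℕ) (l : List UnitAddCircle) (h : UnitAddCircle → ℂ)
    (b : UnitAddCircle) : ∀ x, Avg M l (fun t => h (t - b)) x = Avg M l h (x - b) := by
  induction l with
  | nil => intro x; rfl
  | cons a l ih =>
    intro x
    simp only [Avg, ih]
    congr 1
    apply sum_congr rfl
    intro n _
    congr 1
    abel

theorem Avg_near {M : ℕ} (hM : 0 < M) (l : List UnitAddCircle) (h : UnitAddCircle → ℂ) (ε : ℝ) :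
    ∀ x, (∀ p ∈ pts M l, ‖h (x - p) - 1‖ ≤ ε) → ‖Avg M l h x - 1‖ ≤ ε := by
  induction l with
  | nil =>
    intro x hx
    have := hx 0 (by simp [pts])
    simpa [Avg] using this
  | cons a l ih =>
    intro x hx
    have hM' : (M : ℂ) ≠ 0 := by exact_mod_cast hM.ne'
    have e : Avg M (a :: l) h x - 1 =
        (M : ℂ)⁻¹ * ∑ n ∈ range M, (if n < M then Avg M l h (x - n • a) - 1 else 0) := by
      rw [sum_congr rfl (g := fun n => Avg M l h (x - n • a) - 1)
        (by intro n hn; simp only [mem_range] at hn; simp [hn])]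
      rw [sum_sub_distrib, mul_sub]
      simp only [Avg, sum_const, card_range, nsmul_eq_mul, mul_one]
      rw [inv_mul_cancel₀ hM']
    rw [e]
    have hε : 0 ≤ ε := (norm_nonneg _).trans
      (ih (x - 0 • a) (by
        intro p hp
        rw [sub_sub]
        apply hx
        simp only [pts, List.mem_flatMap, List.mem_range, List.mem_map]
        exact ⟨0, hM, p, hp, rfl⟩))
    apply avg_bound hM
    intro n
    split_ifs with hn
    · apply ih
      intro p hp
      rw [sub_sub]
      apply hx
      simp only [pts, List.mem_flatMap, List.mem_range, List.mem_map]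
      exact ⟨n, hn, p, hp, rfl⟩
    · simpa using hε

theorem Avg_diff {M : ℕ} (hM : 0 < M) (l : List UnitAddCircle) (g : UnitAddCircle → ℂ) (K : ℝ)
    (hK : ∀ x, ‖g x‖ ≤ K) (a : UnitAddCircle) (ha : a ∈ l) :
    ∀ x, ‖Avg M l (fun t => g t - g (t - a)) x‖ ≤ 2 * K / M := by
  induction l with
  | nil => simp at ha
  | cons b l ih =>
    intro x
    by_cases hab : a = b
    · subst hab
      have e : Avg M (a :: l) (fun t => g t - g (t - a)) x
          = (M : ℂ)⁻¹ * (Avg M l g x - Avg M l g (x - M • a)) := by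
        simp only [Avg]
        congr 1
        have h1 : ∀ n : ℕ, Avg M l (fun t => g t - g (t - a)) (x - n • a)
            = Avg M l g (x - n • a) - Avg M l g (x - (n + 1) • a) := by
          intro n
          rw [Avg_sub, Avg_translate]
          congr 2
          rw [succ_nsmul]
          abel
        rw [sum_congr rfl fun n _ => h1 n,
          sum_range_sub' (fun n : ℕ => Avg M l g (x - n • a)) M]
        simp
      rw [e, norm_mul, norm_inv, Complex.norm_natCast]
      have h2 : ‖Avg M l g x - Avg M l g (x - M • a)‖ ≤ 2 * K := by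
        calc _ ≤ ‖Avg M l g x‖ + ‖Avg M l g (x - M • a)‖ := norm_sub_le _ _
          _ ≤ K + K := add_le_add (Avg_bound hM l g K hK _) (Avg_bound hM l g K hK _)
          _ = 2 * K := by ring
      rw [div_eq_inv_mul]
      exact mul_le_mul_of_nonneg_left h2 (by positivity)
    · have ha' : a ∈ l := by
        rcases List.mem_cons.1 ha with h | h
        · exact absurd h hab
        · exact h
      exact avg_bound hM _ _ fun n => ih ha' _

end Pool.Agent.R253.TI
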