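import Pool.Agent.R253.TI.Obs

/-!
If `E` contains arbitrarily long progressions `q, 2q, ..., mq`, there is a discontinuous
translation-invariant linear form on `C_E(𝕋)`.
-/

namespace Pool.Agent.R253.TI

open Finset MeasureTheory AddCircle

noncomputable section

/-- The span of the differences `f - f_a`, `f ∈ C_E(𝕋)`. -/
def DE (E : Set ℤ) : Submodule ℂ CT := Submodule.span ℂ
  {h | ∃ f ∈ CE E, ∃ g ∈ CE E, ∃ a : UnitAddCircle, (∀ t, g t = f (t - a)) ∧ h = f - g}

theorem DE_le_CE (E : Set ℤ) : DE E ≤ CE E := by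
  apply Submodule.span_le.2
  rintro h ⟨f, hf, g, hg, a, -, rfl⟩
  exact (CE E).sub_mem hf hg

theorem zero_mem_Del : (0 : CT) ∈ Del 0 := by
  refine ⟨[], ?_, ?_, ?_⟩ <;> simp

theorem mem_Del_of_DE {E : Set ℤ} {h : CT} (hh : h ∈ DE E) : ∃ n, h ∈ Del n := by
  unfold DE at hh
  induction hh using Submodule.span_induction with
  | mem h hh =>
    obtain ⟨f, hf, g, hg, a, hga, rfl⟩ := hh
    obtain ⟨n, hn⟩ := exists_nat_ge ‖f‖
    refine ⟨n + 1, [(f, a)], by simp, ?_, ?_⟩
    · intro p hp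
      simp only [List.mem_singleton] at hp
      subst hp
      push_cast
      linarith
    · intro t
      simp [hga]
  | zero => exact ⟨0, zero_mem_Del⟩
  | add x y _ _ hx hy =>
    obtain ⟨n, l, hl1, hl2, hl3⟩ := hx
    obtain ⟨m, l', hl1', hl2', hl3'⟩ := hy
    refine ⟨n + m, l ++ l', ?_, ?_, ?_⟩
    · rw [List.length_append]; omega
    · intro p hp
      push_cast
      rw [List.mem_append] at hp
      rcases hp with hp | hp
      · exact (hl2 p hp).trans (by linarith [(Nat.cast_nonneg m : (0 : ℝ) ≤ m)])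
      · exact (hl2' p hp).trans (by linarith [(Nat.cast_nonneg n : (0 : ℝ) ≤ n)])
    · intro t
      rw [ContinuousMap.add_apply, hl3, hl3', List.map_append, List.sum_append]
  | smul c x _ hx =>
    obtain ⟨n, hn⟩ := hx
    obtain ⟨m, hm⟩ := exists_nat_ge (max (2 * (n : ℝ)) (‖c‖ * n))
    refine ⟨m, ?_⟩
    have h0 : (0 : CT) ∈ Del n := ⟨[], by simp, by simp, by simp⟩
    have := Del_comb hn h0 c (m := m) (by
      have := (le_max_left _ _).trans hm
      exact_mod_cast this) ((le_max_right _ _).trans hm)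
    rwa [sub_zero] at this

theorem isClosed_CE (E : Set ℤ) : IsClosed ((CE E : Submodule ℂ CT) : Set CT) := by
  have h : ((CE E : Submodule ℂ CT) : Set CT) = ⋂ k ∈ Eᶜ, {f : CT | fourierCoeff f k = 0} := by
    ext f
    simp [mem_CE]
  rw [h]
  apply isClosed_biInter
  intro k _
  have hc : Continuous fun f : CT => fourierCoeff f k := by
    rw [Metric.continuous_iff]
    intro f ε hε
    refine ⟨ε, hε, ?_⟩
    intro g hg
    rw [dist_eq_norm] at hg ⊢
    have e : fourierCoeff g k - fourierCoeff f k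
        = ∫ t, fourier (-k) t • ((g - f) t) ∂(haarAddCircle (T := 1)) := by
      unfold fourierCoeff
      rw [← integral_sub ((integrable_CT g).fourier_smul _) ((integrable_CT f).fourier_smul _)]
      congr 1
      ext t
      rw [ContinuousMap.sub_apply, smul_sub]
    rw [e]
    refine lt_of_le_of_lt ?_ hg
    have := norm_integral_le_of_norm_le_const (μ := haarAddCircle (T := 1))
      (f := fun t => fourier (-k) t • ((g - f) t)) (C := ‖g - f‖)
      (ae_of_all _ fun t => by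
        rw [norm_smul, fourier_apply, Circle.norm_coe, one_mul]
        exact ContinuousMap.norm_coe_le_norm (g - f) t)
    simpa using this
  exact isClosed_singleton.preimage hc

/-- The general principle: automatic continuity forces the differences to span a closed space. -/
theorem closed_of_autoCont {E : Set ℤ} (hE : AutoCont E) : IsClosed ((DE E : Submodule ℂ CT) : Set CT) := by
  rw [← closure_eq_iff_isClosed]
  apply Set.Subset.antisymm _ subset_closure
  intro f hf
  have hfC : f ∈ CE E := (closure_minimal (DE_le_CE E) (isClosed_CE E)) hf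
  by_contra hfD
  set D0 : Submodule ℂ (CE E) := (DE E).comap (CE E).subtype with hD0
  have hn : (⟨f, hfC⟩ : CE E) ∉ D0 := fun h => hfD h
  obtain ⟨Φ, hΦ1, hΦ2⟩ := Submodule.exists_dual_map_eq_bot_of_notMem (R := ℂ) (M := CE E)
    (p := D0) hn inferInstance
  have hzero : ∀ x : CE E, (x : CT) ∈ DE E → Φ x = 0 := by
    intro x hx
    have : Φ x ∈ D0.map Φ := ⟨x, hx, rfl⟩
    rw [hΦ2] at this
    simpa using this
  have hT : IsTILF E Φ := by
    intro a x y hxy
    have h1 : ((x - y : CE E) : CT) ∈ DE E :=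
      Submodule.subset_span ⟨x, x.2, y, y.2, a, hxy, rfl⟩
    have h2 : Φ x - Φ y = 0 := (LinearMap.map_sub Φ x y).symm.trans (hzero _ h1)
    exact (sub_eq_zero.1 h2).symm
  have hcont := hE Φ hT
  apply hΦ1
  have hcl : (⟨f, hfC⟩ : CE E) ∈ closure {x : CE E | (x : CT) ∈ DE E} := by
    rw [closure_subtype]
    convert hf using 1
    congr 1
    ext g
    constructor
    · rintro ⟨x, hx, rfl⟩
      exact hx
    · intro hg
      exact ⟨⟨g, DE_le_CE E hg⟩, hg, rfl⟩
  have hsub : closure {x : CE E | (x : CT) ∈ DE E} ⊆ {x | Φ x = 0} :=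
    closure_minimal (fun x hx => hzero x hx) (isClosed_eq hcont continuous_const)
  exact hsub hcl

theorem fourier_mem_CE {E : Set ℤ} {n : ℤ} (hn : n ∈ E) : (fourier n : CT) ∈ CE E := by
  intro k hk
  have h := congrFun (fourierCoeff_fourier (T := 1) n) k
  rw [h, Pi.single_eq_of_ne]
  rintro rfl
  exact hk hn

theorem fourier_mem_DE {E : Set ℤ} {n : ℤ} (hn : n ∈ E) (hn0 : n ≠ 0) :
    (fourier n : CT) ∈ DE E := by
  have hC := fourier_mem_CE hn
  refine Submodule.subset_span ⟨(1 / 2 : ℂ) • fourier n, (CE E).smul_mem _ hC,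
    (-1 / 2 : ℂ) • fourier n, (CE E).smul_mem _ hC, -(((1 / 2 / n : ℝ)) : UnitAddCircle), ?_, ?_⟩
  · intro t
    rw [sub_neg_eq_add, ContinuousMap.smul_apply, ContinuousMap.smul_apply,
      fourier_add_half_inv_index hn0 one_pos]
    simp only [smul_eq_mul]
    ring
  · ext t
    simp only [ContinuousMap.sub_apply, ContinuousMap.smul_apply, smul_eq_mul]
    ring

theorem comp_mem_DE {F : CT} (hF : F ∈ Vp) : ∃ d : ℕ, ∀ (E : Set ℤ) (q : ℤ), q ≠ 0 →
    (∀ k : ℕ, 1 ≤ k → k ≤ d → q * k ∈ E) → ∃ f ∈ DE E, ∀ t, f t = F (q • t) := by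
  unfold Vp at hF
  induction hF using Submodule.span_induction with
  | mem F hF =>
    obtain ⟨k, hk, rfl⟩ := hF
    refine ⟨k, ?_⟩
    intro E q hq h
    refine ⟨fourier (q * k), fourier_mem_DE (h k hk le_rfl) (mul_ne_zero hq (by omega)), ?_⟩
    intro t
    rw [fourier_apply, fourier_apply, smul_smul, mul_comm]
  | zero => exact ⟨0, fun E q _ _ => ⟨0, (DE E).zero_mem, fun t => rfl⟩⟩
  | add x y _ _ hx hy =>
    obtain ⟨d, hd⟩ := hx
    obtain ⟨d', hd'⟩ := hy
    refine ⟨max d d', ?_⟩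
    intro E q hq h
    obtain ⟨f, hf, hf2⟩ := hd E q hq fun k h1 h2 => h k h1 (h2.trans (le_max_left _ _))
    obtain ⟨g, hg, hg2⟩ := hd' E q hq fun k h1 h2 => h k h1 (h2.trans (le_max_right _ _))
    exact ⟨f + g, (DE E).add_mem hf hg, fun t => by
      rw [ContinuousMap.add_apply, ContinuousMap.add_apply, hf2, hg2]⟩
  | smul c x _ hx =>
    obtain ⟨d, hd⟩ := hx
    refine ⟨d, ?_⟩
    intro E q hq h
    obtain ⟨f, hf, hf2⟩ := hd E q hq h
    exact ⟨c • f, (DE E).smul_mem c hf, fun t => by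
      rw [ContinuousMap.smul_apply, ContinuousMap.smul_apply, hf2]⟩

theorem not_autoCont {E : Set ℤ}
    (hE : ∀ m : ℕ, ∃ q : ℤ, q ≠ 0 ∧ ∀ k : ℕ, 1 ≤ k → k ≤ m → q * k ∈ E) : ¬ AutoCont E := by
  intro hA
  have hcl := closed_of_autoCont hA
  have : CompleteSpace (DE E) := hcl.completeSpace_coe
  have hun : ⋃ n : ℕ, {x : DE E | (x : CT) ∈ closure (Del n)} = Set.univ := by
    rw [Set.eq_univ_iff_forall]
    intro x
    obtain ⟨n, hn⟩ := mem_Del_of_DE x.2
    exact Set.mem_iUnion.2 ⟨n, subset_closure hn⟩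
  obtain ⟨n, hn⟩ := nonempty_interior_of_iUnion_of_closed
    (fun n => isClosed_closure.preimage continuous_subtype_val) hun
  obtain ⟨x0, hx0⟩ := hn
  rw [mem_interior_iff_mem_nhds, Metric.mem_nhds_iff] at hx0
  obtain ⟨ε, hε, hball⟩ := hx0
  obtain ⟨m, hm⟩ := exists_nat_ge (max (2 * (n : ℝ)) (20 / ε * n))
  obtain ⟨F, hF, hFn, hFobs⟩ := obstruction m
  obtain ⟨d, hd⟩ := comp_mem_DE hF
  obtain ⟨q, hq, hqE⟩ := hE d
  obtain ⟨f, hfD, hfF⟩ := hd E q hq hqE
  have hfn : ‖f‖ ≤ 10 := by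
    rw [ContinuousMap.norm_le _ (by norm_num)]
    intro t
    rw [hfF]
    exact (ContinuousMap.norm_coe_le_norm F _).trans hFn
  have h1 : (x0 : CT) + (ε / 20 : ℂ) • f ∈ closure (Del n) := by
    have : (⟨(x0 : CT) + (ε / 20 : ℂ) • f,
        (DE E).add_mem x0.2 ((DE E).smul_mem _ hfD)⟩ : DE E) ∈ Metric.ball x0 ε := by
      rw [Metric.mem_ball, Subtype.dist_eq, dist_eq_norm]
      simp only []
      rw [add_sub_cancel_left, norm_smul]
      have h2 : ‖(ε / 20 : ℂ)‖ = ε / 20 := by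
        rw [norm_div, Complex.norm_real, Real.norm_of_nonneg hε.le]
        norm_num
      rw [h2]
      calc ε / 20 * ‖f‖ ≤ ε / 20 * 10 := by
            apply mul_le_mul_of_nonneg_left hfn (by positivity)
        _ < ε := by linarith
    exact hball this
  have h2 : (x0 : CT) ∈ closure (Del n) := hball (Metric.mem_ball_self hε)
  obtain ⟨a, ha, hda⟩ := Metric.mem_closure_iff.1 h1 (ε / 160) (by positivity)
  obtain ⟨b, hb, hdb⟩ := Metric.mem_closure_iff.1 h2 (ε / 160) (by positivity)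
  rw [dist_eq_norm] at hda hdb
  have hmem := Del_comb ha hb (20 / ε : ℂ) (m := m)
    (by have := (le_max_left _ _).trans hm; exact_mod_cast this)
    (by
      have h3 : ‖(20 / ε : ℂ)‖ = 20 / ε := by
        rw [norm_div, Complex.norm_real, Real.norm_of_nonneg hε.le]
        norm_num
      rw [h3]
      exact (le_max_right _ _).trans hm)
  have hobs := hFobs q hq f hfF _ hmem
  have hεc : (ε : ℂ) ≠ 0 := by exact_mod_cast hε.ne'
  have e : f - (20 / ε : ℂ) • (a - b)
      = (20 / ε : ℂ) • ((((x0 : CT) + (ε / 20 : ℂ) • f) - a) - ((x0 : CT) - b)) := by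
    have e1 : (((x0 : CT) + (ε / 20 : ℂ) • f) - a) - ((x0 : CT) - b)
        = (ε / 20 : ℂ) • f - (a - b) := by abel
    rw [e1]
    ext t
    simp only [ContinuousMap.sub_apply, ContinuousMap.smul_apply, smul_eq_mul]
    field_simp
  rw [e, norm_smul] at hobs
  have h3 : ‖(20 / ε : ℂ)‖ = 20 / ε := by
    rw [norm_div, Complex.norm_real, Real.norm_of_nonneg hε.le]
    norm_num
  rw [h3] at hobs
  have h4 : ‖(((x0 : CT) + (ε / 20 : ℂ) • f) - a) - ((x0 : CT) - b)‖ < ε / 80 := by
    calc _ ≤ ‖((x0 : CT) + (ε / 20 : ℂ) • f) - a‖ + ‖(x0 : CT) - b‖ := norm_sub_le _ _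
      _ < ε / 160 + ε / 160 := add_lt_add hda hdb
      _ = ε / 80 := by ring
  have h5 : 20 / ε * ‖(((x0 : CT) + (ε / 20 : ℂ) • f) - a) - ((x0 : CT) - b)‖ < 20 / ε * (ε / 80) :=
    mul_lt_mul_of_pos_left h4 (by positivity)
  have h6 : 20 / ε * (ε / 80) = 1 / 4 := by field_simp; norm_num
  rw [h6] at h5
  linarith

end

end Pool.Agent.R253.TI
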