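import Pool.Agent.R253.TI.Sidon

/-!
Passing to Bohr neighbourhoods: a summable multiplier that vanishes off a neighbourhood of `0`.
-/

namespace Pool.Agent.R253.TI

open Finset MeasureTheory AddCircle
open scoped FourierTransform SchwartzMap

noncomputable section

theorem exists_mult {η : ℝ} (hη : 0 < η) (hη2 : η ≤ 1 / 2) :
    ∃ c : ℤ → ℂ, Summable (fun n : ℤ => |(n : ℝ)| * ‖c n‖) ∧ Summable (fun n : ℤ => ‖c n‖) ∧
      ∑' n, c n = 1 ∧ ∀ s : UnitAddCircle, η ≤ ‖s‖ → ∑' n : ℤ, c n * fourier n s = 0 := by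
  let b : ContDiffBump (0 : ℝ) := ⟨η / 2, η, by linarith, by linarith⟩
  have hsm : ContDiff ℝ ((⊤ : ℕ∞) : WithTop ℕ∞) (fun x : ℝ => ((b x : ℝ) : ℂ)) :=
    Complex.ofRealCLM.contDiff.comp b.contDiff
  have hcs : HasCompactSupport (fun x : ℝ => ((b x : ℝ) : ℂ)) :=
    b.hasCompactSupport.comp_left Complex.ofReal_zero
  let f : 𝓢(ℝ, ℂ) := hcs.toSchwartzMap hsm
  have hf : ∀ x, f x = ((b x : ℝ) : ℂ) := fun x => rfl
  obtain ⟨C, hC0, hC⟩ := (𝓕 f).decay 3 0
  have hCn : ∀ n : ℤ, |(n : ℝ)| * ‖𝓕 f (n : ℝ)‖ ≤ C * (1 / (n : ℝ) ^ 2) := by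
    intro n
    by_cases hn : n = 0
    · subst hn; simp
    · have h1 := hC (n : ℝ)
      rw [norm_iteratedFDeriv_zero, Real.norm_eq_abs] at h1
      have hn' : (0 : ℝ) < |(n : ℝ)| := abs_pos.2 (by exact_mod_cast hn)
      have h2 : (0 : ℝ) < (n : ℝ) ^ 2 := by rw [← sq_abs]; positivity
      rw [mul_one_div, le_div_iff₀ h2, ← sq_abs]
      calc |(n : ℝ)| * ‖𝓕 f (n : ℝ)‖ * |(n : ℝ)| ^ 2 = |(n : ℝ)| ^ 3 * ‖𝓕 f (n : ℝ)‖ := by ring
        _ ≤ C := h1
  have hS1 : Summable (fun n : ℤ => |(n : ℝ)| * ‖𝓕 f (n : ℝ)‖) :=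
    Summable.of_nonneg_of_le (fun n => by positivity) hCn
      ((Real.summable_one_div_int_pow.2 one_lt_two).mul_left C)
  have hS2 : Summable (fun n : ℤ => ‖𝓕 f (n : ℝ)‖) := by
    have h0 : Summable fun n : ℤ => if n = 0 then ‖𝓕 f ((0 : ℤ) : ℝ)‖ else 0 :=
      (hasSum_ite_eq (0 : ℤ) ‖𝓕 f ((0 : ℤ) : ℝ)‖).summable
    refine Summable.of_nonneg_of_le (fun n => norm_nonneg _) (fun n => ?_) (hS1.add h0)
    by_cases hn : n = 0
    · subst hn; simp
    · rw [if_neg hn, add_zero]
      have : (1 : ℝ) ≤ |(n : ℝ)| := by exact_mod_cast Int.one_le_abs hn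
      nlinarith [norm_nonneg (𝓕 f (n : ℝ))]
  have hvan : ∀ y : ℝ, η ≤ |y| → f y = 0 := by
    intro y hy
    rw [hf, b.zero_of_le_dist (by simpa [Real.dist_eq] using hy)]
    simp
  refine ⟨fun n => 𝓕 f (n : ℝ), hS1, hS2, ?_, ?_⟩
  · have h1 := SchwartzMap.tsum_eq_tsum_fourier f 0
    have h2 : ∑' n : ℤ, f (0 + n) = 1 := by
      rw [tsum_eq_single 0]
      · rw [hf]
        have : b (0 + ((0 : ℤ) : ℝ)) = 1 := by
          apply b.one_of_mem_closedBall
          simp
          exact (half_pos hη).le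
        rw [this]
        simp
      · intro n hn
        apply hvan
        have : (1 : ℝ) ≤ |(n : ℝ)| := by exact_mod_cast Int.one_le_abs hn
        rw [zero_add]
        linarith
    rw [h2] at h1
    rw [h1]
    apply tsum_congr
    intro n
    have : fourier (T := 1) n ((0 : ℝ) : UnitAddCircle) = 1 := by
      rw [AddCircle.coe_zero]
      exact fourier_eval_zero n
    rw [this, mul_one]
  · intro s hs
    obtain ⟨x, rfl⟩ := QuotientAddGroup.mk_surjective s
    have h1 := SchwartzMap.tsum_eq_tsum_fourier f x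
    have h2 : ∑' n : ℤ, f (x + n) = 0 := by
      rw [← tsum_zero (α := ℂ) (β := ℤ)]
      apply tsum_congr
      intro n
      apply hvan
      have h3 := norm_le_of_int x (-n)
      push_cast at h3
      rw [sub_neg_eq_add] at h3
      exact hs.trans h3
    rw [h2] at h1
    exact h1.symm

theorem tele {E : Set ℤ} {f : CT} (hf : f ∈ CE E) (a : UnitAddCircle) (n : ℤ) :
    ∃ H ∈ CE E, ‖H‖ ≤ |(n : ℝ)| * ‖f‖ ∧ ∀ t, f t - f (t + n • a) = H t - H (t + a) := by
  have hnorm : ∀ b : UnitAddCircle, ‖trans b f‖ ≤ ‖f‖ := by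
    intro b
    rw [ContinuousMap.norm_le _ (norm_nonneg _)]
    intro t
    exact ContinuousMap.norm_coe_le_norm f _
  obtain ⟨m, rfl | rfl⟩ := n.eq_nat_or_neg
  · induction m with
    | zero => exact ⟨0, (CE E).zero_mem, by simp, fun t => by simp⟩
    | succ m ih =>
      obtain ⟨H, hH, hHn, hHt⟩ := ih
      refine ⟨H + trans (-((m : ℤ) • a)) f, (CE E).add_mem hH (trans_mem hf _), ?_, ?_⟩
      · refine (norm_add_le _ _).trans ?_
        refine (add_le_add hHn (hnorm _)).trans ?_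
        push_cast
        rw [abs_of_nonneg (by positivity : (0 : ℝ) ≤ m),
          abs_of_nonneg (by positivity : (0 : ℝ) ≤ (m : ℝ) + 1)]
        linarith
      · intro t
        have h1 := hHt t
        simp only [ContinuousMap.add_apply, trans_apply, sub_neg_eq_add]
        have e : t + ((m + 1 : ℕ) : ℤ) • a = t + a + (m : ℤ) • a := by
          push_cast
          rw [add_smul, one_smul]
          abel
        rw [e]
        linear_combination h1
  · induction m with
    | zero => exact ⟨0, (CE E).zero_mem, by simp, fun t => by simp⟩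
    | succ m ih =>
      obtain ⟨H, hH, hHn, hHt⟩ := ih
      refine ⟨H - trans (((m : ℤ) + 1) • a) f, (CE E).sub_mem hH (trans_mem hf _), ?_, ?_⟩
      · refine (norm_sub_le _ _).trans ?_
        refine (add_le_add hHn (hnorm _)).trans ?_
        push_cast
        rw [abs_neg, abs_neg, abs_of_nonneg (by positivity : (0 : ℝ) ≤ m),
          abs_of_nonneg (by positivity : (0 : ℝ) ≤ (m : ℝ) + 1)]
        linarith
      · intro t
        have h1 := hHt t
        simp only [ContinuousMap.sub_apply, trans_apply]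
        have e : t + (-(((m + 1 : ℕ) : ℤ))) • a = t - ((m : ℤ) + 1) • a := by
          push_cast
          rw [neg_smul, sub_eq_add_neg]
        have e2 : t + a - ((m : ℤ) + 1) • a = t + (-(m : ℤ)) • a := by
          rw [add_smul, one_smul, neg_smul]
          abel
        rw [e, e2]
        linear_combination h1

theorem fourierCoeff_cont (k : ℤ) : Continuous fun f : CT => fourierCoeff f k := by
  rw [Metric.continuous_iff]
  intro f ε hε
  refine ⟨ε, hε, ?_⟩
  intro g hg
  rw [dist_eq_norm] at hg ⊢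
  have e : fourierCoeff g k - fourierCoeff f k
      = ∫ t, fourier (-k) t • ((g - f) t) ∂(haarAddCircle (T := 1)) := by
    unfold fourierCoeff
    rw [← integral_sub ((integrable_CT g).fourier_smul _) ((integrable_CT f).fourier_smul _)]
    congr 1
    ext t
    rw [ContinuousMap.sub_apply, smul_sub]
  rw [e]
  refine lt_of_le_of_lt ?_ hg
  have := norm_integral_le_of_norm_le_const (μ := haarAddCircle (T := 1))
    (f := fun t => fourier (-k) t • ((g - f) t)) (C := ‖g - f‖)
    (ae_of_all _ fun t => by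
      rw [norm_smul, fourier_apply, Circle.norm_coe, one_mul]
      exact ContinuousMap.norm_coe_le_norm (g - f) t)
  simpa using this

theorem fourierCoeff_hasSum {u : ℤ → CT} {g : CT} (h : HasSum u g) (k : ℤ) :
    HasSum (fun n => fourierCoeff (u n) k) (fourierCoeff g k) := by
  have h1 : Filter.Tendsto (fun s : Finset ℤ => fourierCoeff (⇑(∑ n ∈ s, u n)) k) Filter.atTop
      (nhds (fourierCoeff g k)) := ((fourierCoeff_cont k).tendsto g).comp h
  have h2 : (fun s : Finset ℤ => fourierCoeff (⇑(∑ n ∈ s, u n)) k)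
      = fun s : Finset ℤ => ∑ n ∈ s, fourierCoeff (u n) k := by
    funext s
    exact fourierCoeff_sum' s u k
  rw [h2] at h1
  exact h1

/-- Every form is a multiple of the mean. -/
def Mult (E : Set ℤ) : Prop :=
  ∀ Φ : CE E →ₗ[ℂ] ℂ, IsTILF E Φ → ∀ g : CE E, Φ g = fourierCoeff (g : CT) 0 * cst Φ

theorem mult_step {E : Set ℤ} (a : UnitAddCircle) {η : ℝ} (hη : 0 < η) (hη2 : η ≤ 1 / 2)
    (hM : Mult {k | k ∈ E ∧ ‖k • a‖ < η}) : Mult E := by
  intro Φ hΦ g
  obtain ⟨c, hc1, hc2, hc3, hc4⟩ := exists_mult hη hη2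
  have hcs : Summable c := Summable.of_norm hc2
  set f : CT := (g : CT) with hf
  have hfE : f ∈ CE E := g.2
  choose H hHE hHn hHt using fun n : ℤ => tele hfE a n
  have hnorm : ∀ b : UnitAddCircle, ‖trans b f‖ ≤ ‖f‖ := by
    intro b
    rw [ContinuousMap.norm_le _ (norm_nonneg _)]
    intro t
    exact ContinuousMap.norm_coe_le_norm f _
  have hs1 : Summable fun n : ℤ => c n • trans (-(n • a)) f := by
    apply Summable.of_norm
    refine Summable.of_nonneg_of_le (fun _ => norm_nonneg _) (fun n => ?_) (hc2.mul_right ‖f‖)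
    rw [norm_smul]
    exact mul_le_mul_of_nonneg_left (hnorm _) (norm_nonneg _)
  have hs2 : Summable fun n : ℤ => c n • H n := by
    apply Summable.of_norm
    refine Summable.of_nonneg_of_le (fun _ => norm_nonneg _) (fun n => ?_) (hc1.mul_right ‖f‖)
    rw [norm_smul]
    calc ‖c n‖ * ‖H n‖ ≤ ‖c n‖ * (|(n : ℝ)| * ‖f‖) :=
          mul_le_mul_of_nonneg_left (hHn n) (norm_nonneg _)
      _ = |(n : ℝ)| * ‖c n‖ * ‖f‖ := by ring
  obtain ⟨f1, hf1⟩ := hs1
  obtain ⟨G, hG⟩ := hs2
  have hf1E : f1 ∈ CE E := by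
    refine (isClosed_CE E).mem_of_tendsto hf1 (Filter.Eventually.of_forall fun s => ?_)
    exact (CE E).sum_mem fun n _ => (CE E).smul_mem _ (trans_mem hfE _)
  have hGE : G ∈ CE E := by
    refine (isClosed_CE E).mem_of_tendsto hG (Filter.Eventually.of_forall fun s => ?_)
    exact (CE E).sum_mem fun n _ => (CE E).smul_mem _ (hHE n)
  have hcoef : ∀ k : ℤ, fourierCoeff f1 k
      = (∑' n : ℤ, c n * fourier n (k • a)) * fourierCoeff f k := by
    intro k
    have h1 := fourierCoeff_hasSum hf1 k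
    have h2 : (fun n : ℤ => fourierCoeff (⇑(c n • trans (-(n • a)) f)) k)
        = fun n : ℤ => (c n * fourier n (k • a)) * fourierCoeff f k := by
      funext n
      rw [fourierCoeff_smul', fourierCoeff_trans]
      have h3 : fourier (T := 1) (-k) (-(n • a)) = fourier n (k • a) := by
        rw [fourier_apply, fourier_apply, neg_smul_neg, smul_comm]
      rw [h3]
      ring
    rw [h2] at h1
    rw [← h1.tsum_eq, tsum_mul_right]
  have hf1S : f1 ∈ CE {k | k ∈ E ∧ ‖k • a‖ < η} := by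
    intro k hk
    rw [hcoef]
    by_cases hkE : k ∈ E
    · have : η ≤ ‖k • a‖ := by
        by_contra hlt
        exact hk ⟨hkE, not_le.1 hlt⟩
      rw [hc4 _ this, zero_mul]
    · rw [hfE k hkE, mul_zero]
  have hcoef0 : fourierCoeff f1 0 = fourierCoeff f 0 := by
    rw [hcoef 0]
    have : ∑' n : ℤ, c n * fourier (T := 1) n ((0 : ℤ) • a) = 1 := by
      rw [← hc3]
      apply tsum_congr
      intro n
      rw [zero_smul, fourier_eval_zero, mul_one]
    rw [this, one_mul]
  have hval : ∀ t, f t - f1 t = G t - trans (-a) G t := by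
    intro t
    have h1 : HasSum (fun n : ℤ => c n * f t) (f t) := by
      have := hcs.hasSum.mul_right (f t)
      rwa [hc3, one_mul] at this
    have h2 : HasSum (fun n : ℤ => c n * f (t + n • a)) (f1 t) := by
      have := (ContinuousMap.evalCLM ℂ t).hasSum hf1
      have e : (fun n : ℤ => c n * f (t + n • a))
          = fun n : ℤ => (ContinuousMap.evalCLM ℂ t) (c n • trans (-(n • a)) f) := by
        funext n
        show c n * f (t + n • a) = c n * f (t - -(n • a))
        rw [sub_neg_eq_add]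
      rw [e]
      exact this
    have h3 : ∀ s : UnitAddCircle, HasSum (fun n : ℤ => c n * H n s) (G s) := by
      intro s
      have := (ContinuousMap.evalCLM ℂ s).hasSum hG
      exact this
    have h4 := h1.sub h2
    have h5 := (h3 t).sub (h3 (t + a))
    have e : (fun n : ℤ => c n * f t - c n * f (t + n • a))
        = fun n : ℤ => c n * H n t - c n * H n (t + a) := by
      funext n
      have := hHt n t
      linear_combination (c n) * this
    rw [e] at h4
    have h6 := h4.unique h5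
    rw [h6, trans_apply, sub_neg_eq_add]
  have hΦ1 : Φ g = Φ ⟨f1, hf1E⟩ := by
    have hsubd : ∀ u v : CE E, Φ (u - v) = Φ u - Φ v := fun u v => LinearMap.map_sub Φ u v
    have h1 : g - ⟨f1, hf1E⟩ = (⟨G, hGE⟩ : CE E) - ⟨trans (-a) G, trans_mem hGE _⟩ := by
      apply Subtype.ext
      ext t
      exact hval t
    have h4 : Φ (⟨trans (-a) G, trans_mem hGE _⟩ : CE E) = Φ ⟨G, hGE⟩ :=
      hΦ (-a) ⟨G, hGE⟩ ⟨trans (-a) G, trans_mem hGE _⟩ fun t => rfl
    have h5 : Φ (g - ⟨f1, hf1E⟩) = 0 := by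
      rw [h1]
      exact (hsubd _ _).trans (by rw [h4, sub_self])
    have h6 : Φ g - Φ ⟨f1, hf1E⟩ = 0 := (hsubd g ⟨f1, hf1E⟩).symm.trans h5
    exact sub_eq_zero.1 h6
  have hsub : {k | k ∈ E ∧ ‖k • a‖ < η} ⊆ E := fun k hk => hk.1
  set Φ' : CE {k | k ∈ E ∧ ‖k • a‖ < η} →ₗ[ℂ] ℂ := Φ.comp (Submodule.inclusion (CE_mono hsub))
    with hΦ'
  have hΦ'T : IsTILF {k | k ∈ E ∧ ‖k • a‖ < η} Φ' := by
    intro b u v huv
    exact hΦ b (Submodule.inclusion (CE_mono hsub) u) (Submodule.inclusion (CE_mono hsub) v) huv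
  have h7 := hM Φ' hΦ'T ⟨f1, hf1S⟩
  have h8 : cst Φ' = cst Φ := by
    by_cases h0 : (0 : ℤ) ∈ E
    · have h0' : (0 : ℤ) ∈ {k | k ∈ E ∧ ‖k • a‖ < η} := ⟨h0, by rw [zero_smul, norm_zero]; exact hη⟩
      simp only [cst, dif_pos h0, dif_pos h0']
      rfl
    · have h0' : (0 : ℤ) ∉ {k | k ∈ E ∧ ‖k • a‖ < η} := fun h => h0 h.1
      simp only [cst, dif_neg h0, dif_neg h0']
  rw [hΦ1, ← h8, ← hcoef0]
  exact h7

theorem mult_bohr (l : List UnitAddCircle) {η : ℝ} (hη : 0 < η) (hη2 : η ≤ 1 / 2) :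
    ∀ E : Set ℤ, IsSidon {k | k ∈ E ∧ ∀ a ∈ l, ‖k • a‖ < η} → Mult E := by
  induction l with
  | nil =>
    intro E hE Φ hΦ g
    have e : {k | k ∈ E ∧ ∀ a ∈ ([] : List UnitAddCircle), ‖k • a‖ < η} = E := by
      ext k
      simp
    rw [e] at hE
    exact sidon_tilf le_rfl hE hΦ g g.2
  | cons a l ih =>
    intro E hE
    apply mult_step a hη hη2
    apply ih
    have e : {k | k ∈ {k | k ∈ E ∧ ‖k • a‖ < η} ∧ ∀ b ∈ l, ‖k • b‖ < η}
        = {k | k ∈ E ∧ ∀ b ∈ a :: l, ‖k • b‖ < η} := by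
      ext k
      simp [and_assoc]
    rw [e]
    exact hE

theorem autoCont_bohr (E : Set ℤ) (l : List UnitAddCircle) (η : ℝ) (hη : 0 < η)
    (hS : IsSidon {k | k ∈ E ∧ ∀ a ∈ l, ‖k • a‖ < η}) : AutoCont E := by
  intro Φ hΦ
  have hM : Mult E := by
    apply mult_bohr l (η := min η (1 / 2)) (by positivity) (min_le_right _ _)
    have hsub : {k | k ∈ E ∧ ∀ a ∈ l, ‖k • a‖ < min η (1 / 2)}
        ⊆ {k | k ∈ E ∧ ∀ a ∈ l, ‖k • a‖ < η} :=
      fun k hk => ⟨hk.1, fun a ha => (hk.2 a ha).trans_le (min_le_left _ _)⟩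
    exact fun f => hS ⟨f, CE_mono hsub f.2⟩
  have : (Φ : CE E → ℂ) = fun f : CE E => fourierCoeff (f : CT) 0 * cst Φ := funext (hM Φ hΦ)
  rw [this]
  exact ((fourierCoeff_cont 0).comp continuous_subtype_val).mul continuous_const

end

end Pool.Agent.R253.TI
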