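import Pool.Agent.R253.TI.Defs

/-!
A continuous function `0 ≤ u ≤ 1` of small mean which is `1` near the points `t` with
`R ^ j t ∈ ℤ` for some `j < L`.
-/

namespace Pool.Agent.R253.TI

open Finset MeasureTheory AddCircle

noncomputable section

/-- The bump. -/
def psi (R : ℕ) (t : UnitAddCircle) : ℝ := max 0 (min 1 (2 - ‖t‖ * R / 2))

theorem psi_nonneg (R : ℕ) (t : UnitAddCircle) : 0 ≤ psi R t := le_max_left _ _

theorem psi_le_one (R : ℕ) (t : UnitAddCircle) : psi R t ≤ 1 :=
  max_le zero_le_one (min_le_left _ _)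

theorem psi_eq_one {R : ℕ} (hR : 0 < R) {t : UnitAddCircle} (ht : ‖t‖ ≤ 2 / R) : psi R t = 1 := by
  have hR' : (0 : ℝ) < R := by exact_mod_cast hR
  have h : ‖t‖ * R ≤ 2 := by rwa [le_div_iff₀ hR'] at ht
  unfold psi
  rw [min_eq_left (by linarith), max_eq_right zero_le_one]

theorem psi_eq_zero {R : ℕ} (hR : 0 < R) {t : UnitAddCircle} (ht : 4 / (R : ℝ) < ‖t‖) :
    psi R t = 0 := by
  have hR' : (0 : ℝ) < R := by exact_mod_cast hR
  have h : 4 < ‖t‖ * R := by rwa [div_lt_iff₀ hR'] at ht
  unfold psi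
  apply max_eq_left
  exact (min_le_right _ _).trans (by linarith)

theorem continuous_psi (R : ℕ) : Continuous (psi R) := by
  unfold psi
  fun_prop

/-- The function `u`. -/
def uu (R L : ℕ) (t : UnitAddCircle) : ℝ := 1 - ∏ j ∈ range L, (1 - psi R ((R ^ j : ℕ) • t))

theorem continuous_uu (R L : ℕ) : Continuous (uu R L) := by
  unfold uu
  apply continuous_const.sub
  apply continuous_finsetProd
  intro j _
  apply continuous_const.sub
  exact (continuous_psi R).comp (continuous_const_smul _)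

theorem prod_mem (R L : ℕ) (t : UnitAddCircle) :
    0 ≤ ∏ j ∈ range L, (1 - psi R ((R ^ j : ℕ) • t)) ∧
      ∏ j ∈ range L, (1 - psi R ((R ^ j : ℕ) • t)) ≤ 1 := by
  constructor
  · apply prod_nonneg
    intro j _
    linarith [psi_le_one R ((R ^ j : ℕ) • t)]
  · apply prod_le_one
    · intro j _
      linarith [psi_le_one R ((R ^ j : ℕ) • t)]
    · intro j _
      linarith [psi_nonneg R ((R ^ j : ℕ) • t)]

theorem uu_nonneg (R L : ℕ) (t : UnitAddCircle) : 0 ≤ uu R L t := by
  unfold uu
  linarith [(prod_mem R L t).2]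

theorem uu_le_one (R L : ℕ) (t : UnitAddCircle) : uu R L t ≤ 1 := by
  unfold uu
  linarith [(prod_mem R L t).1]

theorem uu_eq_one {R L : ℕ} (hR : 0 < R) {t : UnitAddCircle} {j : ℕ} (hj : j < L)
    (ht : ‖(R ^ j : ℕ) • t‖ ≤ 2 / R) : uu R L t = 1 := by
  unfold uu
  rw [prod_eq_zero (i := j) (mem_range.2 hj) (by rw [psi_eq_one hR ht, sub_self]), sub_zero]

theorem one_sub_prod_le (n : ℕ) (x : ℕ → ℝ) (h0 : ∀ i, 0 ≤ x i) (h1 : ∀ i, x i ≤ 1) :
    1 - ∏ j ∈ range n, (1 - x j) ≤ ∑ j ∈ range n, x j := by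
  induction n with
  | zero => simp
  | succ n ih =>
    rw [prod_range_succ, sum_range_succ]
    have hp0 : 0 ≤ ∏ j ∈ range n, (1 - x j) := prod_nonneg fun j _ => by linarith [h1 j]
    have hp1 : ∏ j ∈ range n, (1 - x j) ≤ 1 :=
      prod_le_one (fun j _ => by linarith [h1 j]) fun j _ => by linarith [h0 j]
    nlinarith [h0 n, h1 n]

theorem uu_le_sum (R L : ℕ) (t : UnitAddCircle) :
    uu R L t ≤ ∑ j ∈ range L, psi R ((R ^ j : ℕ) • t) :=
  one_sub_prod_le L (fun j => psi R ((R ^ j : ℕ) • t)) (fun _ => psi_nonneg _ _)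
    fun _ => psi_le_one _ _

theorem haar_eq : (haarAddCircle (T := 1)) = (volume : Measure UnitAddCircle) := by
  rw [volume_eq_smul_haarAddCircle]
  simp

theorem integral_psi {R : ℕ} (hR : 0 < R) :
    ∫ t, psi R t ∂(haarAddCircle (T := 1)) ≤ 8 / R := by
  have hR' : (0 : ℝ) < R := by exact_mod_cast hR
  have h1 : ∀ t, psi R t ≤ (Metric.closedBall (0 : UnitAddCircle) (4 / R)).indicator
      (fun _ => (1 : ℝ)) t := by
    intro t
    by_cases ht : ‖t‖ ≤ 4 / R
    · rw [Set.indicator_of_mem (by simpa using ht)]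
      exact psi_le_one R t
    · rw [Set.indicator_of_notMem (by simpa using ht)]
      exact (psi_eq_zero hR (not_le.1 ht)).le
  have hint : Integrable (psi R) (haarAddCircle (T := 1)) :=
    (continuous_psi R).integrable_of_hasCompactSupport (HasCompactSupport.of_compactSpace _)
  calc ∫ t, psi R t ∂(haarAddCircle (T := 1))
      ≤ ∫ t, (Metric.closedBall (0 : UnitAddCircle) (4 / R)).indicator (fun _ => (1 : ℝ)) t
          ∂(haarAddCircle (T := 1)) := by
        apply integral_mono hint _ h1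
        exact (integrable_const _).indicator Metric.isClosed_closedBall.measurableSet
    _ = (haarAddCircle (T := 1)).real (Metric.closedBall (0 : UnitAddCircle) (4 / R)) := by
        rw [integral_indicator Metric.isClosed_closedBall.measurableSet]
        simp
    _ ≤ 8 / R := by
        rw [haar_eq, Measure.real, volume_closedBall]
        have : min 1 (2 * (4 / (R : ℝ))) ≤ 8 / R := (min_le_right _ _).trans (by
          apply le_of_eq; ring)
        have h8 : (0 : ℝ) ≤ 8 / R := by positivity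
        calc (ENNReal.ofReal (min 1 (2 * (4 / (R : ℝ))))).toReal
            ≤ (ENNReal.ofReal (8 / R)).toReal := by
              apply ENNReal.toReal_mono ENNReal.ofReal_ne_top
              exact ENNReal.ofReal_le_ofReal this
          _ = 8 / R := ENNReal.toReal_ofReal h8

theorem mp_nsmul {n : ℕ} (hn : n ≠ 0) :
    MeasurePreserving (fun t : UnitAddCircle => n • t) (haarAddCircle (T := 1))
      (haarAddCircle (T := 1)) := by
  have := Measure.measurePreserving_zsmul (haarAddCircle (T := 1)) (n := (n : ℤ)) (by exact_mod_cast hn)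
  simpa using this

theorem integral_psi_comp {R : ℕ} {n : ℕ} (hn : n ≠ 0) :
    ∫ t, psi R (n • t) ∂(haarAddCircle (T := 1)) = ∫ t, psi R t ∂(haarAddCircle (T := 1)) := by
  have h := (mp_nsmul hn)
  rw [← h.map_eq]
  conv_rhs => rw [integral_map h.measurable.aemeasurable
    (continuous_psi R).aestronglyMeasurable]
  rw [h.map_eq]

theorem integral_uu {R : ℕ} (hR : 0 < R) (L : ℕ) :
    ∫ t, uu R L t ∂(haarAddCircle (T := 1)) ≤ L * (8 / R) := by
  have hint : ∀ {f : UnitAddCircle → ℝ}, Continuous f → Integrable f (haarAddCircle (T := 1)) :=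
    fun hf => hf.integrable_of_hasCompactSupport (HasCompactSupport.of_compactSpace _)
  have hc : ∀ j : ℕ, Continuous fun t : UnitAddCircle => psi R ((R ^ j : ℕ) • t) := fun j =>
    (continuous_psi R).comp (continuous_const_smul _)
  calc ∫ t, uu R L t ∂(haarAddCircle (T := 1))
      ≤ ∫ t, ∑ j ∈ range L, psi R ((R ^ j : ℕ) • t) ∂(haarAddCircle (T := 1)) := by
        apply integral_mono (hint (continuous_uu R L)) _ (uu_le_sum R L)
        exact hint (continuous_finsetSum _ fun j _ => hc j)
    _ = ∑ j ∈ range L, ∫ t, psi R ((R ^ j : ℕ) • t) ∂(haarAddCircle (T := 1)) :=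
        integral_finsetSum _ fun j _ => hint (hc j)
    _ = ∑ j ∈ range L, ∫ t, psi R t ∂(haarAddCircle (T := 1)) :=
        sum_congr rfl fun j _ => integral_psi_comp (pow_pos hR j).ne'
    _ ≤ ∑ j ∈ range L, 8 / (R : ℝ) := sum_le_sum fun j _ => integral_psi hR
    _ = L * (8 / R) := by simp

end

end Pool.Agent.R253.TI
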