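import Mathlib

/-!
Translation-invariant linear forms on `C_E(𝕋)`: definitions.
-/

namespace Pool.Agent.R253.TI

open MeasureTheory AddCircle

noncomputable section

/-- `C(𝕋)`, the continuous complex functions on `𝕋 = ℝ/ℤ`, with the supremum norm. -/
abbrev CT := C(UnitAddCircle, ℂ)

theorem integrable_CT (f : CT) : Integrable (fun t => f t) (haarAddCircle (T := 1)) :=
  f.continuous.integrable_of_hasCompactSupport (HasCompactSupport.of_compactSpace _)

/-- `C_E(𝕋)`: the continuous functions whose Fourier coefficients outside `E` vanish. -/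
def CE (E : Set ℤ) : Submodule ℂ CT where
  carrier := {f | ∀ k : ℤ, k ∉ E → fourierCoeff f k = 0}
  add_mem' := by
    intro f g hf hg k hk
    have := congrFun (fourierCoeff.add (integrable_CT f) (integrable_CT g)) k
    have h2 : fourierCoeff (⇑(f + g)) k = fourierCoeff ((fun t => f t) + fun t => g t) k := rfl
    rw [h2, this, Pi.add_apply]
    have h3 := hf k hk
    have h4 := hg k hk
    rw [show fourierCoeff (fun t => f t) k = 0 from h3, show fourierCoeff (fun t => g t) k = 0 from h4,
      add_zero]
  zero_mem' := by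
    intro k _
    simp [fourierCoeff]
  smul_mem' := by
    intro c f hf k hk
    have := fourierCoeff.const_smul (T := 1) (fun t => f t) c k
    have h2 : fourierCoeff (⇑(c • f)) k = fourierCoeff (c • fun t => f t) k := rfl
    rw [h2, this, show fourierCoeff (fun t => f t) k = 0 from hf k hk, smul_zero]

/-- A translation-invariant linear form on `C_E(𝕋)`, not assumed continuous: `Φ g = Φ f` whenever
`g` is the translate `t ↦ f (t - a)` of `f`. -/
def IsTILF (E : Set ℤ) (Φ : CE E →ₗ[ℂ] ℂ) : Prop :=
  ∀ (a : UnitAddCircle) (f g : CE E), (∀ t, (g : CT) t = (f : CT) (t - a)) → Φ g = Φ f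

/-- The automatic continuity property of `E`. -/
def AutoCont (E : Set ℤ) : Prop :=
  ∀ Φ : CE E →ₗ[ℂ] ℂ, IsTILF E Φ → Continuous Φ

/-- `E` is a Sidon set. -/
def IsSidon (E : Set ℤ) : Prop :=
  ∀ f : CE E, Summable fun k : ℤ => ‖fourierCoeff (f : CT) k‖

theorem mem_CE {E : Set ℤ} {f : CT} : f ∈ CE E ↔ ∀ k : ℤ, k ∉ E → fourierCoeff f k = 0 := Iff.rfl

end

end Pool.Agent.R253.TI
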