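import Pool.Agent.R253.TI.Defs

/-!
Translations, and averaging over the `q`-th roots of unity.
-/

namespace Pool.Agent.R253.TI

open Finset MeasureTheory AddCircle

noncomputable section

/-- Translation. -/
def trans (a : UnitAddCircle) (f : CT) : CT := ⟨fun t => f (t - a), by fun_prop⟩

theorem trans_apply (a : UnitAddCircle) (f : CT) (t : UnitAddCircle) : trans a f t = f (t - a) :=
  rfl

theorem fourierCoeff_trans (a : UnitAddCircle) (f : CT) (k : ℤ) :
    fourierCoeff (trans a f) k = fourier (-k) a * fourierCoeff f k := by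
  have h1 : ∀ t : UnitAddCircle, fourier (-k) t • (trans a f) t
      = (fun s : UnitAddCircle => fourier (-k) a * (fourier (-k) s • f s)) (t - a) := by
    intro t
    have e : fourier (T := 1) (-k) t = fourier (-k) (t - a + a) := by rw [sub_add_cancel]
    simp only [trans_apply, smul_eq_mul]
    rw [e]
    have : fourier (T := 1) (-k) (t - a + a) = fourier (-k) (t - a) * fourier (-k) a := by
      simp only [fourier_apply, smul_add, toCircle_add, Circle.coe_mul]
    rw [this]
    ring
  unfold fourierCoeff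
  simp_rw [h1]
  rw [integral_sub_right_eq_self (μ := haarAddCircle (T := 1))
    (fun s : UnitAddCircle => fourier (-k) a * (fourier (-k) s • f s)) a]
  exact integral_const_mul _ _

theorem trans_mem {E : Set ℤ} {f : CT} (hf : f ∈ CE E) (a : UnitAddCircle) : trans a f ∈ CE E := by
  intro k hk
  rw [fourierCoeff_trans, hf k hk, mul_zero]

theorem fourierCoeff_add' (f g : CT) (k : ℤ) :
    fourierCoeff (⇑(f + g)) k = fourierCoeff f k + fourierCoeff g k := by
  have := congrFun (fourierCoeff.add (integrable_CT f) (integrable_CT g)) k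
  exact this

theorem fourierCoeff_smul' (c : ℂ) (f : CT) (k : ℤ) :
    fourierCoeff (⇑(c • f)) k = c * fourierCoeff f k :=
  fourierCoeff.const_smul (T := 1) (fun t => f t) c k

theorem fourierCoeff_zero' (k : ℤ) : fourierCoeff (⇑(0 : CT)) k = 0 := by
  simp [fourierCoeff]

theorem fourierCoeff_sum' {ι : Type*} (s : Finset ι) (f : ι → CT) (k : ℤ) :
    fourierCoeff (⇑(∑ i ∈ s, f i)) k = ∑ i ∈ s, fourierCoeff (f i) k := by
  classical
  induction s using Finset.induction_on with
  | empty => rw [sum_empty, sum_empty]; exact fourierCoeff_zero' k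
  | insert i s hi ih => rw [sum_insert hi, sum_insert hi, fourierCoeff_add', ih]

/-- Average over the translations by `j / q`. -/
def mu (q : ℕ) (f : CT) : CT :=
  (q : ℂ)⁻¹ • ∑ j ∈ range q, trans (j • (((1 / q : ℝ)) : UnitAddCircle)) f

theorem fourier_div (q : ℕ) (k : ℤ) :
    fourier (T := 1) (-k) (((1 / q : ℝ)) : UnitAddCircle)
      = Complex.exp (2 * Real.pi * Complex.I * (-k) / q) := by
  rw [fourier_coe_apply]
  congr 1
  push_cast
  field_simp

theorem fourier_nsmul (k : ℤ) (a : UnitAddCircle) (j : ℕ) :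
    fourier (T := 1) k (j • a) = (fourier (T := 1) k a) ^ j := by
  induction j with
  | zero => simp
  | succ j ih =>
    have : fourier (T := 1) k (j • a + a) = fourier k (j • a) * fourier k a := by
      simp only [fourier_apply, smul_add, toCircle_add, Circle.coe_mul]
    rw [succ_nsmul, this, ih, pow_succ]

theorem fourierCoeff_mu {q : ℕ} (hq : 0 < q) (f : CT) (k : ℤ) :
    fourierCoeff (mu q f) k = if (q : ℤ) ∣ k then fourierCoeff f k else 0 := by
  have hq' : (q : ℂ) ≠ 0 := by exact_mod_cast hq.ne'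
  unfold mu
  rw [fourierCoeff_smul', fourierCoeff_sum']
  simp_rw [fourierCoeff_trans, fourier_nsmul]
  rw [← sum_mul]
  set ζ : ℂ := fourier (T := 1) (-k) (((1 / q : ℝ)) : UnitAddCircle) with hζ
  have hexp : ζ = Complex.exp (2 * Real.pi * Complex.I * (-k) / q) := fourier_div q k
  have hpow : ζ ^ q = 1 := by
    rw [hexp, ← Complex.exp_nat_mul, Complex.exp_eq_one_iff]
    refine ⟨-k, ?_⟩
    push_cast
    field_simp
  split_ifs with hdvd
  · have h1 : ζ = 1 := by
      rw [hexp, Complex.exp_eq_one_iff]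
      obtain ⟨l, rfl⟩ := hdvd
      refine ⟨-l, ?_⟩
      push_cast
      field_simp
    rw [h1]
    simp only [one_pow, sum_const, card_range, nsmul_eq_mul, mul_one]
    rw [← mul_assoc, inv_mul_cancel₀ hq', one_mul]
  · have h1 : ζ ≠ 1 := by
      rw [hexp]
      intro h
      rw [Complex.exp_eq_one_iff] at h
      obtain ⟨l, hl⟩ := h
      apply hdvd
      refine ⟨-l, ?_⟩
      have h2pi : (2 * Real.pi * Complex.I : ℂ) ≠ 0 := Complex.two_pi_I_ne_zero
      have h3 : (-(k : ℂ)) / q = l := by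
        have h4 : (2 * Real.pi * Complex.I : ℂ) * ((-(k : ℂ)) / q) = (2 * Real.pi * Complex.I) * l := by
          rw [← mul_div_assoc, hl]
          ring
        exact mul_left_cancel₀ h2pi h4
      rw [div_eq_iff hq'] at h3
      have h5 : (-k : ℤ) = l * q := by exact_mod_cast h3
      linarith [mul_comm (l : ℤ) q]
    have h2 : ∑ j ∈ range q, ζ ^ j = 0 := by
      have h3 := geom_sum_mul ζ q
      rw [hpow, sub_self] at h3
      exact (mul_eq_zero.1 h3).resolve_right (sub_ne_zero.2 h1)
    rw [h2]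
    simp

theorem mu_mem {E : Set ℤ} {q : ℕ} (hq : 0 < q) {f : CT} (hf : f ∈ CE E) :
    mu q f ∈ CE {k | k ∈ E ∧ (q : ℤ) ∣ k} := by
  intro k hk
  rw [fourierCoeff_mu hq]
  split_ifs with h
  · exact hf k fun hkE => hk ⟨hkE, h⟩
  · rfl

theorem CE_mono {E F : Set ℤ} (h : E ⊆ F) : CE E ≤ CE F :=
  fun _ hf k hk => hf k fun hkE => hk (h hkE)

theorem tilf_mu {E : Set ℤ} {q : ℕ} (hq : 0 < q) {Φ : CE E →ₗ[ℂ] ℂ} (hΦ : IsTILF E Φ)
    (f : CE E) (hm : mu q f ∈ CE E) : Φ ⟨mu q f, hm⟩ = Φ f := by
  have hq' : (q : ℂ) ≠ 0 := by exact_mod_cast hq.ne'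
  have e : (⟨mu q f, hm⟩ : CE E) = (q : ℂ)⁻¹ • ∑ j ∈ range q,
      (⟨trans (j • (((1 / q : ℝ)) : UnitAddCircle)) f, trans_mem f.2 _⟩ : CE E) := by
    apply Subtype.ext
    simp [mu, Submodule.coe_sum]
  rw [e, map_smul, map_sum]
  have h1 : ∀ j ∈ range q,
      Φ (⟨trans (j • (((1 / q : ℝ)) : UnitAddCircle)) f, trans_mem f.2 _⟩ : CE E) = Φ f :=
    fun j _ => hΦ _ f _ fun t => rfl
  rw [sum_congr rfl h1]
  simp only [sum_const, card_range, nsmul_eq_mul, smul_eq_mul]
  rw [← mul_assoc, inv_mul_cancel₀ hq', one_mul]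

end

end Pool.Agent.R253.TI
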