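import Mathlib

namespace Pool.Agent.R253.TI

/-- Nested intervals: the points `x + p_j` can be put simultaneously close to the integers after
multiplication by `R ^ (i + j)`. -/
theorem nest (R : ℕ) (hR : 2 ≤ R) (P : List ℝ) : ∀ (i : ℕ) (s : ℝ),
    ∃ x : ℝ, s ≤ x ∧ x ≤ s + 2 / (R : ℝ) ^ i ∧
      ∀ (j : ℕ) (hj : j < P.length), ∃ k : ℤ, |(R : ℝ) ^ (i + j) * (x + P[j]) - k| ≤ 2 / R := by
  induction P with
  | nil =>
    intro i s
    refine ⟨s, le_refl _, ?_, ?_⟩
    · have : (0 : ℝ) ≤ 2 / (R : ℝ) ^ i := by positivity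
      linarith
    · intro j hj
      simp at hj
  | cons p P ih =>
    intro i s
    have hR0 : (0 : ℝ) < R := by exact_mod_cast (by omega : 0 < R)
    have hR2 : (2 : ℝ) ≤ R := by exact_mod_cast hR
    have hRi : (0 : ℝ) < (R : ℝ) ^ i := by positivity
    set k : ℤ := ⌈(R : ℝ) ^ i * (s + p)⌉ with hk
    set x1 : ℝ := (k : ℝ) / (R : ℝ) ^ i - p with hx1
    have h1 : s ≤ x1 := by
      have := Int.le_ceil ((R : ℝ) ^ i * (s + p))
      have h2 : s + p ≤ (k : ℝ) / (R : ℝ) ^ i := by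
        rw [le_div_iff₀ hRi]
        linarith
      linarith
    have h2 : x1 ≤ s + 1 / (R : ℝ) ^ i := by
      have := Int.ceil_lt_add_one ((R : ℝ) ^ i * (s + p))
      have h3 : (k : ℝ) / (R : ℝ) ^ i ≤ (s + p) + 1 / (R : ℝ) ^ i := by
        rw [div_le_iff₀ hRi, add_mul, one_div, inv_mul_cancel₀ hRi.ne']
        linarith
      linarith
    obtain ⟨x, hx1', hx2, hx3⟩ := ih (i + 1) x1
    have hstep : 2 / (R : ℝ) ^ (i + 1) ≤ 1 / (R : ℝ) ^ i := by
      rw [pow_succ, div_le_div_iff₀ (by positivity) hRi]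
      nlinarith
    refine ⟨x, by linarith, ?_, ?_⟩
    · have : s + 2 / (R : ℝ) ^ i = s + 1 / (R : ℝ) ^ i + 1 / (R : ℝ) ^ i := by ring
      rw [this]
      linarith
    · intro j hj
      rcases j with _ | j
      · refine ⟨k, ?_⟩
        simp only [List.getElem_cons_zero, add_zero]
        have e : (R : ℝ) ^ i * (x + p) - k = (R : ℝ) ^ i * (x - x1) := by
          rw [hx1]
          field_simp
          ring
        rw [e, abs_of_nonneg (mul_nonneg hRi.le (by linarith))]
        calc (R : ℝ) ^ i * (x - x1) ≤ (R : ℝ) ^ i * (2 / (R : ℝ) ^ (i + 1)) := by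
              apply mul_le_mul_of_nonneg_left _ hRi.le
              linarith
          _ = 2 / R := by
              rw [pow_succ]
              field_simp
      · obtain ⟨k', hk'⟩ := hx3 j (by simpa using hj)
        refine ⟨k', ?_⟩
        simp only [List.getElem_cons_succ]
        rw [show i + (j + 1) = i + 1 + j by ring]
        exact hk'

theorem norm_le_of_int (y : ℝ) (k : ℤ) : ‖(y : UnitAddCircle)‖ ≤ |y - k| := by
  rw [UnitAddCircle.norm_eq]
  exact round_le y k

/-- The same on the circle. -/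
theorem nest_circle (R : ℕ) (hR : 2 ≤ R) (P : List UnitAddCircle) :
    ∃ x : UnitAddCircle, ∀ p ∈ P, ∃ j < P.length, ‖(R ^ j : ℕ) • (x + p)‖ ≤ 2 / R := by
  classical
  have hsurj : ∀ p : UnitAddCircle, ∃ y : ℝ, (y : UnitAddCircle) = p := fun p =>
    QuotientAddGroup.mk_surjective p
  choose lift hlift using hsurj
  obtain ⟨x, -, -, hx⟩ := nest R hR (P.map lift) 0 0
  refine ⟨(x : UnitAddCircle), ?_⟩
  intro p hp
  obtain ⟨j, hj, rfl⟩ := List.getElem_of_mem hp
  refine ⟨j, hj, ?_⟩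
  obtain ⟨k, hk⟩ := hx j (by simpa using hj)
  have e : (R ^ j : ℕ) • ((x : UnitAddCircle) + P[j])
      = (((R : ℝ) ^ (0 + j) * (x + (P.map lift)[j]'(by simpa using hj)) : ℝ) : UnitAddCircle) := by
    rw [List.getElem_map, zero_add]
    conv_lhs => rw [← hlift P[j]]
    rw [← QuotientAddGroup.mk_add, ← QuotientAddGroup.mk_nsmul]
    congr 1
    rw [nsmul_eq_mul]
    push_cast
    rfl
  rw [e]
  exact (norm_le_of_int _ k).trans hk

end Pool.Agent.R253.TI
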