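import Pool.Agent.R253.TI.Defs

/-!
Analytic trigonometric polynomials without constant term that are close to `1` on a given set.
-/

namespace Pool.Agent.R253.TI

open Finset MeasureTheory AddCircle

noncomputable section

/-- The trigonometric polynomials with frequencies `≥ 1`. -/
def Vp : Submodule ℂ CT := Submodule.span ℂ {f | ∃ k : ℕ, 1 ≤ k ∧ f = fourier (k : ℤ)}

theorem fourier_mem_Vp {k : ℕ} (hk : 1 ≤ k) : (fourier (k : ℤ) : CT) ∈ Vp :=
  Submodule.subset_span ⟨k, hk, rfl⟩

theorem fourier_mul (m n : ℤ) : (fourier m : CT) * fourier n = fourier (m + n) := by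
  ext t
  rw [ContinuousMap.mul_apply, fourier_add]

theorem mul_mem_Vp {f g : CT} (hf : f ∈ Vp) (hg : g ∈ Vp) : f * g ∈ Vp := by
  unfold Vp at hf
  induction hf using Submodule.span_induction with
  | mem f hf =>
    obtain ⟨k, hk, rfl⟩ := hf
    unfold Vp at hg
    induction hg using Submodule.span_induction with
    | mem g hg =>
      obtain ⟨l, hl, rfl⟩ := hg
      rw [fourier_mul]
      have := fourier_mem_Vp (k := k + l) (by omega)
      simpa using this
    | zero => rw [mul_zero]; exact Vp.zero_mem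
    | add x y _ _ hx hy => rw [mul_add]; exact Vp.add_mem hx hy
    | smul c x _ hx => rw [mul_smul_comm]; exact Vp.smul_mem c hx
  | zero => rw [zero_mul]; exact Vp.zero_mem
  | add x y _ _ hx hy => rw [add_mul]; exact Vp.add_mem hx hy
  | smul c x _ hx => rw [smul_mul_assoc]; exact Vp.smul_mem c hx

theorem pow_mem_Vp {f : CT} (hf : f ∈ Vp) (n : ℕ) : f ^ (n + 1) ∈ Vp := by
  induction n with
  | zero => simpa using hf
  | succ n ih => rw [pow_succ]; exact mul_mem_Vp ih hf

theorem integral_fourier {k : ℤ} (hk : k ≠ 0) :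
    ∫ t, (fourier k : CT) t ∂(haarAddCircle (T := 1)) = 0 := by
  have h := congrFun (fourierCoeff_fourier (T := 1) k) 0
  rw [Pi.single_eq_of_ne (Ne.symm hk)] at h
  simpa [fourierCoeff] using h

theorem integral_Vp {f : CT} (hf : f ∈ Vp) : ∫ t, f t ∂(haarAddCircle (T := 1)) = 0 := by
  unfold Vp at hf
  induction hf using Submodule.span_induction with
  | mem f hf =>
    obtain ⟨k, hk, rfl⟩ := hf
    exact integral_fourier (by omega)
  | zero => simp
  | add x y _ _ hx hy =>
    have := integral_add (integrable_CT x) (integrable_CT y)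
    simp only [ContinuousMap.add_apply]
    rw [this, hx, hy, add_zero]
  | smul c x _ hx =>
    simp only [ContinuousMap.smul_apply]
    rw [integral_smul, hx, smul_zero]

theorem re_decomp {p : CT} (hp : p ∈ Submodule.span ℂ (Set.range (fourier (T := 1)))) :
    ∀ z : ℂ, ∃ G ∈ Vp, ∃ c : ℝ, ∀ t, (z * p t).re = (G t).re + c := by
  induction hp using Submodule.span_induction with
  | mem p hp =>
    obtain ⟨n, rfl⟩ := hp
    intro z
    rcases lt_trichotomy n 0 with hn | hn | hn
    · obtain ⟨k, hk⟩ : ∃ k : ℕ, n = -(k : ℤ) := ⟨n.natAbs, by omega⟩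
      refine ⟨(starRingEnd ℂ z) • fourier (k : ℤ), Vp.smul_mem _ (fourier_mem_Vp (by omega)), 0, ?_⟩
      intro t
      rw [hk, add_zero, ContinuousMap.smul_apply, smul_eq_mul, fourier_neg, ← Complex.conj_re]
      congr 1
      rw [map_mul, Complex.conj_conj]
    · subst hn
      refine ⟨0, Vp.zero_mem, z.re, ?_⟩
      intro t
      rw [fourier_zero]
      simp
    · obtain ⟨k, hk⟩ : ∃ k : ℕ, n = (k : ℤ) := ⟨n.natAbs, by omega⟩
      refine ⟨z • fourier (k : ℤ), Vp.smul_mem _ (fourier_mem_Vp (by omega)), 0, ?_⟩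
      intro t
      rw [hk, add_zero, ContinuousMap.smul_apply, smul_eq_mul]
  | zero =>
    intro z
    exact ⟨0, Vp.zero_mem, 0, fun t => by simp⟩
  | add x y _ _ hx hy =>
    intro z
    obtain ⟨G, hG, c, h1⟩ := hx z
    obtain ⟨G', hG', c', h2⟩ := hy z
    refine ⟨G + G', Vp.add_mem hG hG', c + c', ?_⟩
    intro t
    rw [ContinuousMap.add_apply, ContinuousMap.add_apply, mul_add, Complex.add_re, Complex.add_re,
      h1, h2]
    ring
  | smul w x _ hx =>
    intro z
    obtain ⟨G, hG, c, h1⟩ := hx (z * w)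
    refine ⟨G, hG, c, ?_⟩
    intro t
    rw [← h1 t, ContinuousMap.smul_apply, smul_eq_mul]
    ring_nf

theorem exp_eval (x : CT) (t : UnitAddCircle) : (NormedSpace.exp x) t = Complex.exp (x t) := by
  have h1 := NormedSpace.exp_series_hasSum_exp' (𝕂 := ℂ) x
  have h2 := (ContinuousMap.evalCLM ℂ t).hasSum h1
  have h3 := NormedSpace.exp_series_hasSum_exp' (𝕂 := ℂ) (x t)
  have h4 : HasSum (fun n : ℕ => ((n.factorial : ℂ)⁻¹ • (x t) ^ n)) ((NormedSpace.exp x) t) := h2
  rw [Complex.exp_eq_exp_ℂ]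
  exact h4.unique h3

theorem exists_poly (u : UnitAddCircle → ℝ) (hu : Continuous u) (h0 : ∀ t, 0 ≤ u t)
    (hm : ∫ t, u t ∂(haarAddCircle (T := 1)) ≤ 1 / 4) :
    ∃ F ∈ Vp, ‖F‖ ≤ 10 ∧ ∀ t, u t = 1 → ‖F t - 1‖ ≤ 1 / 4 := by
  set U : CT := ⟨fun t => (u t : ℂ), Complex.continuous_ofReal.comp hu⟩ with hU
  have hcl : U ∈ (Submodule.span ℂ (Set.range (fourier (T := 1)))).topologicalClosure := by
    rw [span_fourier_closure_eq_top]
    trivial
  obtain ⟨p, hp, hUp⟩ := Metric.mem_closure_iff.1 hcl (1 / 16) (by norm_num)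
  rw [dist_eq_norm] at hUp
  obtain ⟨G, hG, c, hGc⟩ := re_decomp hp 1
  simp only [one_mul] at hGc
  have hpt : ∀ t, |u t - (p t).re| ≤ 1 / 16 := by
    intro t
    have h1 : ‖(U - p) t‖ ≤ ‖U - p‖ := ContinuousMap.norm_coe_le_norm _ t
    have h2 : (U - p) t = (u t : ℂ) - p t := rfl
    rw [h2] at h1
    have h3 := Complex.abs_re_le_norm ((u t : ℂ) - p t)
    rw [Complex.sub_re, Complex.ofReal_re] at h3
    linarith
  have hintR : ∀ {f : UnitAddCircle → ℝ}, Continuous f → Integrable f (haarAddCircle (T := 1)) :=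
    fun hf => hf.integrable_of_hasCompactSupport (HasCompactSupport.of_compactSpace _)
  have hc : c ≤ 5 / 16 := by
    have h1 : ∫ t, (G t).re ∂(haarAddCircle (T := 1)) = 0 := by
      have := integral_re (𝕜 := ℂ) (integrable_CT G)
      simp only [RCLike.re_to_complex] at this
      rw [this, integral_Vp hG]
      simp
    have h2 : ∫ t, (p t).re ∂(haarAddCircle (T := 1)) = c := by
      have hGi : Integrable (fun t => (G t).re) (haarAddCircle (T := 1)) :=
        hintR (Complex.continuous_re.comp G.continuous)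
      calc ∫ t, (p t).re ∂(haarAddCircle (T := 1))
          = ∫ t, ((G t).re + c) ∂(haarAddCircle (T := 1)) := integral_congr_ae (ae_of_all _ hGc)
        _ = ∫ t, (G t).re ∂(haarAddCircle (T := 1)) + ∫ _, c ∂(haarAddCircle (T := 1)) :=
            integral_add hGi (integrable_const _)
        _ = c := by rw [h1]; simp
    have h3 : ∫ t, (p t).re ∂(haarAddCircle (T := 1))
        ≤ ∫ t, (u t + 1 / 16) ∂(haarAddCircle (T := 1)) := by
      apply integral_mono (hintR (Complex.continuous_re.comp p.continuous))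
        (hintR (hu.add continuous_const))
      intro t
      have := (abs_le.1 (hpt t)).1
      show (p t).re ≤ u t + 1 / 16
      linarith
    rw [integral_add (hintR hu) (integrable_const _)] at h3
    simp at h3
    linarith
  -- the exponential
  set x : CT := (-4 : ℂ) • G with hx
  have hxV : x ∈ Vp := Vp.smul_mem _ hG
  have hnorm : ∀ t, ‖(NormedSpace.exp x) t‖ = Real.exp (-4 * ((p t).re - c)) := by
    intro t
    rw [exp_eval, Complex.norm_exp]
    congr 1
    rw [hGc t, hx, ContinuousMap.smul_apply, smul_eq_mul]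
    simp
  have hs := NormedSpace.exp_series_hasSum_exp' (𝕂 := ℂ) x
  have htend := hs.tendsto_sum_nat
  rw [Metric.tendsto_atTop] at htend
  obtain ⟨J, hJ⟩ := htend (1 / 10) (by norm_num)
  have hJ1 := hJ (J + 1) (by omega)
  rw [sum_range_succ', dist_eq_norm] at hJ1
  simp only [pow_zero, Nat.factorial_zero, Nat.cast_one, inv_one, one_smul] at hJ1
  set S : CT := ∑ k ∈ range J, (((k + 1).factorial : ℂ)⁻¹ • x ^ (k + 1)) with hS
  have hSV : S ∈ Vp := by
    rw [hS]
    exact Vp.sum_mem fun k _ => Vp.smul_mem _ (pow_mem_Vp hxV k)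
  have hclose : ∀ t, ‖-S t - 1 + (NormedSpace.exp x) t‖ ≤ 1 / 10 := by
    intro t
    have h1 : ‖(S + 1 - NormedSpace.exp x) t‖ ≤ ‖S + 1 - NormedSpace.exp x‖ :=
      ContinuousMap.norm_coe_le_norm _ t
    have h2 : (S + 1 - NormedSpace.exp x) t = -(-S t - 1 + (NormedSpace.exp x) t) := by
      simp only [ContinuousMap.sub_apply, ContinuousMap.add_apply, ContinuousMap.one_apply]
      ring
    rw [h2, norm_neg] at h1
    linarith
  refine ⟨-S, Vp.neg_mem hSV, ?_, ?_⟩
  · rw [ContinuousMap.norm_le _ (by norm_num)]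
    intro t
    have h1 := hclose t
    have h2 := hnorm t
    have h3 : Real.exp (-4 * ((p t).re - c)) ≤ 8 := by
      have h4 := (abs_le.1 (hpt t)).2
      have h5 : -4 * ((p t).re - c) ≤ 2 := by linarith [h0 t]
      calc Real.exp (-4 * ((p t).re - c)) ≤ Real.exp 2 := Real.exp_le_exp.2 h5
        _ = Real.exp 1 ^ 2 := by rw [← Real.exp_nat_mul]; norm_num
        _ ≤ 2.7182818286 ^ 2 := by
            gcongr
            exact Real.exp_one_lt_d9.le
        _ ≤ 8 := by norm_num
    have e : (-S) t = (-S t - 1 + (NormedSpace.exp x) t) + 1 - (NormedSpace.exp x) t := by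
      simp only [ContinuousMap.neg_apply]
      ring
    rw [e]
    calc _ ≤ ‖(-S t - 1 + (NormedSpace.exp x) t) + 1‖ + ‖(NormedSpace.exp x) t‖ := norm_sub_le _ _
      _ ≤ (‖(-S t - 1 + (NormedSpace.exp x) t)‖ + ‖(1 : ℂ)‖) + ‖(NormedSpace.exp x) t‖ := by
          gcongr
          exact norm_add_le _ _
      _ ≤ (1 / 10 + 1) + 8 := by
          rw [norm_one]
          gcongr
          rw [h2]
          exact h3
      _ ≤ 10 := by norm_num
  · intro t ht
    have h1 := hclose t
    have h2 := hnorm t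
    have h3 : Real.exp (-4 * ((p t).re - c)) ≤ 1 / 7 := by
      have h4 := (abs_le.1 (hpt t)).2
      rw [ht] at h4
      have h5 : -4 * ((p t).re - c) ≤ -2 := by linarith
      calc Real.exp (-4 * ((p t).re - c)) ≤ Real.exp (-2) := Real.exp_le_exp.2 h5
        _ = (Real.exp 1 ^ 2)⁻¹ := by rw [← Real.exp_nat_mul, Real.exp_neg]; norm_num
        _ ≤ (2.7182818283 ^ 2)⁻¹ := by
            gcongr
            exact Real.exp_one_gt_d9.le
        _ ≤ 1 / 7 := by norm_num
    have e : (-S) t - 1 = (-S t - 1 + (NormedSpace.exp x) t) - (NormedSpace.exp x) t := by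
      simp only [ContinuousMap.neg_apply]
      ring
    rw [e]
    calc _ ≤ ‖(-S t - 1 + (NormedSpace.exp x) t)‖ + ‖(NormedSpace.exp x) t‖ := norm_sub_le _ _
      _ ≤ 1 / 10 + 1 / 7 := by
          gcongr
          rw [h2]
          exact h3
      _ ≤ 1 / 4 := by norm_num

end

end Pool.Agent.R253.TI
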