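import Pool.Agent.R253.TI.Avg
import Pool.Agent.R253.TI.Nest
import Pool.Agent.R253.TI.Bump
import Pool.Agent.R253.TI.Poly

/-!
Sums of boundedly many differences of bounded functions are not dense.
-/

namespace Pool.Agent.R253.TI

open Finset MeasureTheory AddCircle

noncomputable section

/-- Sums of at most `n` differences `g - g_a` with `‖g‖ ≤ n`. -/
def Del (n : ℕ) : Set CT :=
  {h | ∃ l : List (CT × UnitAddCircle), l.length ≤ n ∧ (∀ p ∈ l, ‖p.1‖ ≤ n) ∧
    ∀ t, h t = (l.map fun p => p.1 t - p.1 (t - p.2)).sum}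

theorem Del_comb {n m : ℕ} {a b : CT} (ha : a ∈ Del n) (hb : b ∈ Del n) (c : ℂ)
    (h2 : 2 * n ≤ m) (hc : ‖c‖ * n ≤ m) : c • (a - b) ∈ Del m := by
  obtain ⟨la, hla, hna, hva⟩ := ha
  obtain ⟨lb, hlb, hnb, hvb⟩ := hb
  refine ⟨(la.map fun p => (c • p.1, p.2)) ++ (lb.map fun p => ((-c) • p.1, p.2)), ?_, ?_, ?_⟩
  · simp only [List.length_append, List.length_map]
    omega
  · intro p hp
    rw [List.mem_append, List.mem_map, List.mem_map] at hp
    rcases hp with ⟨p', hp', rfl⟩ | ⟨p', hp', rfl⟩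
    · simp only []
      rw [norm_smul]
      exact (mul_le_mul_of_nonneg_left (hna p' hp') (norm_nonneg _)).trans hc
    · simp only []
      rw [norm_smul, norm_neg]
      exact (mul_le_mul_of_nonneg_left (hnb p' hp') (norm_nonneg _)).trans hc
  · intro t
    rw [ContinuousMap.smul_apply, ContinuousMap.sub_apply, hva, hvb, List.map_append,
      List.sum_append, List.map_map, List.map_map, smul_eq_mul, mul_sub, sub_eq_add_neg, ← neg_mul]
    rw [← List.sum_map_mul_left, ← List.sum_map_mul_left]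
    congr 1
    · congr 1
      apply List.map_congr_left
      intro p _
      simp [mul_sub]
    · congr 1
      apply List.map_congr_left
      intro p _
      simp [mul_sub]

theorem Avg_list {M : ℕ} (hM : 0 < M) (la : List UnitAddCircle) (K : ℝ)
    (l : List (CT × UnitAddCircle)) (hl : ∀ p ∈ l, p.2 ∈ la ∧ ‖p.1‖ ≤ K) (x : UnitAddCircle) :
    ‖Avg M la (fun t => (l.map fun p => p.1 t - p.1 (t - p.2)).sum) x‖
      ≤ l.length * (2 * K / M) := by
  induction l with
  | nil =>
    have := Avg_bound hM la (fun _ => (0 : ℂ)) 0 (by simp) x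
    simpa using this
  | cons p l ih =>
    have ih' := ih fun q hq => hl q (List.mem_cons_of_mem _ hq)
    have hp := hl p List.mem_cons_self
    have h1 := Avg_diff hM la (fun t => p.1 t) K
      (fun y => (ContinuousMap.norm_coe_le_norm _ y).trans hp.2) p.2 hp.1 x
    simp only [List.map_cons, List.sum_cons, List.length_cons]
    rw [Avg_add]
    calc _ ≤ _ + _ := norm_add_le _ _
      _ ≤ 2 * K / M + l.length * (2 * K / M) := add_le_add h1 ih'
      _ = _ := by push_cast; ring

theorem zsmul_surj {q : ℤ} (hq : q ≠ 0) (y : UnitAddCircle) : ∃ x : UnitAddCircle, q • x = y := by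
  obtain ⟨r, rfl⟩ := QuotientAddGroup.mk_surjective y
  refine ⟨((r / q : ℝ) : UnitAddCircle), ?_⟩
  have : q • ((r / q : ℝ) : UnitAddCircle) = ((q • (r / q : ℝ) : ℝ) : UnitAddCircle) :=
    (QuotientAddGroup.mk_zsmul _ _ _).symm
  rw [this, zsmul_eq_mul, mul_div_cancel₀]
  exact_mod_cast hq

theorem obstruction (m : ℕ) : ∃ F ∈ Vp, ‖F‖ ≤ 10 ∧ ∀ q : ℤ, q ≠ 0 → ∀ f : CT,
    (∀ t, f t = F (q • t)) → ∀ h ∈ Del m, 1 / 4 ≤ ‖f - h‖ := by
  set M : ℕ := 16 * m ^ 2 + 1 with hMdef
  have hM : 0 < M := by omega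
  set L : ℕ := M ^ m with hLdef
  have hL : 0 < L := pow_pos hM m
  set R : ℕ := 32 * L + 2 with hRdef
  have hR : 0 < R := by omega
  have hint : ∫ t, uu R L t ∂(haarAddCircle (T := 1)) ≤ 1 / 4 := by
    refine (integral_uu hR L).trans ?_
    have hR' : (0 : ℝ) < R := by exact_mod_cast hR
    rw [mul_div_assoc', div_le_iff₀ hR', hRdef]
    push_cast
    linarith
  obtain ⟨F, hF, hFn, hF1⟩ := exists_poly (uu R L) (continuous_uu R L) (uu_nonneg R L) hint
  refine ⟨F, hF, hFn, ?_⟩
  intro q hq f hf h hh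
  by_contra hlt
  push Not at hlt
  obtain ⟨l, hlen, hnorm, hval⟩ := hh
  set la : List UnitAddCircle := l.map Prod.snd with hla
  obtain ⟨y, hy⟩ := nest_circle R (by omega) ((pts M la).map fun p => -(q • p))
  obtain ⟨x, hx⟩ := zsmul_surj hq y
  have hlenP : ((pts M la).map fun p => -(q • p)).length ≤ L := by
    rw [List.length_map, length_pts, hla, List.length_map, hLdef]
    exact Nat.pow_le_pow_right hM hlen
  have hnear : ‖Avg M la (fun t => f t) x - 1‖ ≤ 1 / 4 := by
    apply Avg_near hM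
    intro p hp
    rw [hf]
    apply hF1
    obtain ⟨j, hj, hj2⟩ := hy (-(q • p)) (List.mem_map.2 ⟨p, hp, rfl⟩)
    apply uu_eq_one hR (lt_of_lt_of_le hj hlenP)
    rw [smul_sub, hx, sub_eq_add_neg]
    exact hj2
  have hM' : (0 : ℝ) < M := by exact_mod_cast hM
  have hhs : ‖Avg M la (fun t => h t) x‖ ≤ 1 / 8 := by
    have h1 := Avg_list hM la m l (fun p hp => ⟨List.mem_map.2 ⟨p, hp, rfl⟩, hnorm p hp⟩) x
    have h2 : (fun t => h t) = fun t => (l.map fun p => p.1 t - p.1 (t - p.2)).sum :=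
      funext hval
    rw [h2]
    refine h1.trans ?_
    have h3 : (l.length : ℝ) ≤ m := by exact_mod_cast hlen
    calc (l.length : ℝ) * (2 * m / M) ≤ m * (2 * m / M) :=
          mul_le_mul_of_nonneg_right h3 (by positivity)
      _ ≤ 1 / 8 := by
          rw [mul_div_assoc', div_le_iff₀ hM', hMdef]
          push_cast
          nlinarith
  have hdiff : ‖Avg M la (fun t => f t - h t) x‖ ≤ 1 / 4 :=
    Avg_bound hM la _ _ (fun z => (ContinuousMap.norm_coe_le_norm (f - h) z).trans hlt.le) x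
  rw [Avg_sub] at hdiff
  have h5 : (1 : ℝ) ≤ 1 / 4 + (1 / 4 + 1 / 8) := by
    have e : (1 : ℂ) = -(Avg M la (fun t => f t) x - 1)
        + ((Avg M la (fun t => f t) x - Avg M la (fun t => h t) x)
          + Avg M la (fun t => h t) x) := by ring
    calc (1 : ℝ) = ‖(1 : ℂ)‖ := norm_one.symm
      _ = ‖-(Avg M la (fun t => f t) x - 1)
        + ((Avg M la (fun t => f t) x - Avg M la (fun t => h t) x)
          + Avg M la (fun t => h t) x)‖ := by rw [← e]
      _ ≤ ‖-(Avg M la (fun t => f t) x - 1)‖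
        + ‖((Avg M la (fun t => f t) x - Avg M la (fun t => h t) x)
          + Avg M la (fun t => h t) x)‖ := norm_add_le _ _
      _ ≤ 1 / 4 + (1 / 4 + 1 / 8) := by
          apply add_le_add
          · rw [norm_neg]; exact hnear
          · exact (norm_add_le _ _).trans (add_le_add hdiff hhs)
  norm_num at h5

end

end Pool.Agent.R253.TI
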