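import Pool.Agent.R253.TI.Bump

/-!
For an absolutely summable sequence `c_k` one can choose `x, y` on the circle such that
`c_k / max (|1 - e(kx)|, |1 - e(ky)|)` is summable over `k ≠ 0`.
-/

namespace Pool.Agent.R253.TI

open Finset MeasureTheory AddCircle

noncomputable section

/-- A dyadic majorant of `‖t‖ ^ (-1/2)`. -/
def th (t : UnitAddCircle) : ENNReal :=
  ∑' n : ℕ, ENNReal.ofReal ((3 / 2) ^ n) *
    (Metric.closedBall (0 : UnitAddCircle) ((1 / 2) ^ n)).indicator 1 t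

theorem measurable_th : Measurable th := by
  unfold th
  apply Measurable.tsum
  intro n
  exact (measurable_one.indicator Metric.isClosed_closedBall.measurableSet).const_mul _

theorem lintegral_th : ∫⁻ t, th t ∂(haarAddCircle (T := 1)) ≠ ⊤ := by
  have h1 : ∫⁻ t, th t ∂(haarAddCircle (T := 1)) ≤ ∑' n : ℕ, ENNReal.ofReal (2 * (3 / 4) ^ n) := by
    unfold th
    rw [lintegral_tsum fun n => ((measurable_one.indicator
      Metric.isClosed_closedBall.measurableSet).const_mul _).aemeasurable]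
    apply ENNReal.tsum_le_tsum
    intro n
    rw [lintegral_const_mul _ (measurable_one.indicator
      Metric.isClosed_closedBall.measurableSet),
      lintegral_indicator_one Metric.isClosed_closedBall.measurableSet, haar_eq, volume_closedBall,
      ← ENNReal.ofReal_mul (by positivity)]
    apply ENNReal.ofReal_le_ofReal
    calc (3 / 2 : ℝ) ^ n * min 1 (2 * (1 / 2) ^ n) ≤ (3 / 2 : ℝ) ^ n * (2 * (1 / 2) ^ n) :=
          mul_le_mul_of_nonneg_left (min_le_right _ _) (by positivity)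
      _ = 2 * ((3 / 2) ^ n * (1 / 2) ^ n) := by ring
      _ = 2 * (3 / 4) ^ n := by rw [← mul_pow]; norm_num
  have h2 : Summable fun n : ℕ => 2 * (3 / 4 : ℝ) ^ n :=
    (summable_geometric_of_lt_one (by norm_num) (by norm_num)).mul_left 2
  rw [← ENNReal.ofReal_tsum_of_nonneg (fun n => by positivity) h2] at h1
  exact ne_top_of_le_ne_top ENNReal.ofReal_ne_top h1

theorem mp_zsmul {n : ℤ} (hn : n ≠ 0) :
    MeasurePreserving (fun t : UnitAddCircle => n • t) (haarAddCircle (T := 1))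
      (haarAddCircle (T := 1)) :=
  Measure.measurePreserving_zsmul (haarAddCircle (T := 1)) hn

theorem choose_x (c : ℤ → ENNReal) (h0 : c 0 = 0) (hc : ∑' k, c k ≠ ⊤) :
    ∃ x : UnitAddCircle, ∑' k : ℤ, c k * th (k • x) ≠ ⊤ := by
  have hmeas : ∀ k : ℤ, Measurable fun x : UnitAddCircle => c k * th (k • x) := fun k =>
    (measurable_th.comp (continuous_const_smul k).measurable).const_mul _
  have hI : ∫⁻ x, ∑' k : ℤ, c k * th (k • x) ∂(haarAddCircle (T := 1)) ≠ ⊤ := by
    rw [lintegral_tsum fun k => (hmeas k).aemeasurable]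
    have h1 : ∀ k : ℤ, ∫⁻ x, c k * th (k • x) ∂(haarAddCircle (T := 1))
        = c k * ∫⁻ x, th x ∂(haarAddCircle (T := 1)) := by
      intro k
      by_cases hk : k = 0
      · subst hk
        simp [h0]
      · have hm : Measurable fun x : UnitAddCircle => th (k • x) :=
          measurable_th.comp (continuous_const_smul k).measurable
        rw [lintegral_const_mul _ hm]
        congr 1
        exact (mp_zsmul hk).lintegral_comp measurable_th
    simp_rw [h1]
    rw [ENNReal.tsum_mul_right]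
    exact ENNReal.mul_ne_top hc lintegral_th
  have hae := ae_lt_top (Measurable.tsum fun k => hmeas k) hI
  obtain ⟨x, hx⟩ := hae.exists
  exact ⟨x, hx.ne⟩

theorem th_ge {t : UnitAddCircle} {n : ℕ} (h : ‖t‖ ≤ (1 / 2) ^ n) :
    ENNReal.ofReal ((3 / 2) ^ n) ≤ th t := by
  unfold th
  refine le_trans ?_ (ENNReal.le_tsum n)
  rw [Set.indicator_of_mem (by simpa using h)]
  simp

theorem th_zero : th 0 = ⊤ := by
  rw [eq_top_iff]
  apply le_of_forall_lt
  intro c hc
  obtain ⟨r, hr⟩ : ∃ n : ℕ, c < n := ENNReal.exists_nat_gt hc.ne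
  obtain ⟨n, hn⟩ := pow_unbounded_of_one_lt (r : ℝ) (by norm_num : (1 : ℝ) < 3 / 2)
  refine lt_of_lt_of_le hr (le_trans ?_ (th_ge (t := 0) (n := n) (by simp)))
  rw [← ENNReal.ofReal_natCast]
  exact ENNReal.ofReal_le_ofReal hn.le

/-- `|1 - e(t)|`. -/
def av (t : UnitAddCircle) : ℝ := ‖1 - (toCircle t : ℂ)‖

theorem av_ge (t : UnitAddCircle) : 4 * ‖t‖ ≤ av t := by
  obtain ⟨x, rfl⟩ := QuotientAddGroup.mk_surjective t
  set r : ℝ := x - round x with hr
  have hrx : ((r : ℝ) : UnitAddCircle) = (x : UnitAddCircle) := by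
    rw [hr, AddCircle.coe_sub]
    have : ((round x : ℝ) : UnitAddCircle) = 0 := by
      rw [AddCircle.coe_eq_zero_iff]
      exact ⟨round x, by simp⟩
    rw [this, sub_zero]
  have hn : ‖(x : UnitAddCircle)‖ = |r| := UnitAddCircle.norm_eq
  have hr2 : |r| ≤ 1 / 2 := abs_sub_round x
  show 4 * ‖(x : UnitAddCircle)‖ ≤ av (x : UnitAddCircle)
  rw [hn, ← hrx]
  unfold av
  have e : ((toCircle ((r : ℝ) : UnitAddCircle) : Circle) : ℂ)
      = Complex.exp (Complex.I * ((2 * Real.pi * r : ℝ) : ℂ)) := by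
    rw [AddCircle.toCircle_apply_mk, Circle.coe_exp]
    congr 1
    push_cast
    ring
  rw [e, norm_sub_rev, Complex.norm_exp_I_mul_ofReal_sub_one]
  rw [Real.norm_eq_abs, abs_mul]
  have h2 : (2 * Real.pi * r) / 2 = Real.pi * r := by ring
  rw [h2]
  have h3 : |Real.sin (Real.pi * r)| = Real.sin (Real.pi * |r|) := by
    rcases le_total 0 r with h | h
    · rw [abs_of_nonneg h, abs_of_nonneg]
      apply Real.sin_nonneg_of_nonneg_of_le_pi (by positivity)
      rw [abs_of_nonneg h] at hr2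
      nlinarith [Real.pi_pos]
    · rw [abs_of_nonpos h]
      have : Real.pi * r = -(Real.pi * -r) := by ring
      rw [this, Real.sin_neg, abs_neg, abs_of_nonneg]
      apply Real.sin_nonneg_of_nonneg_of_le_pi
      · apply mul_nonneg Real.pi_pos.le; linarith
      · rw [abs_of_nonpos h] at hr2
        nlinarith [Real.pi_pos]
  rw [h3]
  have h4 := Real.mul_le_sin (x := Real.pi * |r|) (by positivity)
    (by nlinarith [Real.pi_pos])
  have h5 : 2 / Real.pi * (Real.pi * |r|) = 2 * |r| := by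
    field_simp
  rw [h5] at h4
  rw [abs_of_pos (by norm_num : (0 : ℝ) < 2)]
  linarith

theorem key_bound {s t : UnitAddCircle} (hs : s ≠ 0) (ht : t ≠ 0) :
    0 < max (av s) (av t) ∧
      ENNReal.ofReal ((max (av s) (av t))⁻¹) ≤ th s * th t := by
  have hs' : 0 < ‖s‖ := norm_pos_iff.2 hs
  have ht' : 0 < ‖t‖ := norm_pos_iff.2 ht
  have hle : ∀ z : UnitAddCircle, ‖z‖ ≤ 1 := fun z => by
    have := AddCircle.norm_le_half_period (p := (1 : ℝ)) (x := z) one_ne_zero
    rw [abs_one] at this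
    linarith
  obtain ⟨n, hn1, hn2⟩ := exists_nat_pow_near_of_lt_one hs' (hle s) (by norm_num : (0 : ℝ) < 1 / 2)
    (by norm_num)
  obtain ⟨m, hm1, hm2⟩ := exists_nat_pow_near_of_lt_one ht' (hle t) (by norm_num : (0 : ℝ) < 1 / 2)
    (by norm_num)
  have ha := av_ge s
  have hb := av_ge t
  set a := av s
  set b := av t
  have ha1 : 2 * (1 / 2) ^ n ≤ a := by
    rw [pow_succ] at hn1
    linarith
  have hb1 : 2 * (1 / 2) ^ m ≤ b := by
    rw [pow_succ] at hm1
    linarith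
  have hn0 : (0 : ℝ) < (1 / 2) ^ n := by positivity
  have hm0 : (0 : ℝ) < (1 / 2) ^ m := by positivity
  have hM : 0 < max a b := lt_of_lt_of_le (by linarith) (le_max_left a b)
  refine ⟨hM, ?_⟩
  have hQ : (max a b)⁻¹ ≤ (3 / 2) ^ n * (3 / 2) ^ m := by
    rw [inv_le_iff_one_le_mul₀ hM]
    have h1 : 1 ≤ ((3 / 2 : ℝ) ^ n * (3 / 2) ^ m * max a b) ^ 2 := by
      have h2 : 4 * ((1 / 2 : ℝ) ^ n * (1 / 2) ^ m) ≤ (max a b) ^ 2 := by
        calc 4 * ((1 / 2 : ℝ) ^ n * (1 / 2) ^ m) = (2 * (1 / 2) ^ n) * (2 * (1 / 2) ^ m) := by ring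
          _ ≤ a * b := mul_le_mul ha1 hb1 (by positivity) (by linarith)
          _ ≤ max a b * max a b :=
              mul_le_mul (le_max_left _ _) (le_max_right _ _) (by linarith) hM.le
          _ = (max a b) ^ 2 := by ring
      have h3 : (1 : ℝ) ≤ (9 / 8) ^ n * (9 / 8) ^ m := by
        have h4 : (1 : ℝ) ≤ (9 / 8) ^ n := one_le_pow₀ (by norm_num)
        have h5 : (1 : ℝ) ≤ (9 / 8) ^ m := one_le_pow₀ (by norm_num)
        nlinarith
      have h6 : ((3 / 2 : ℝ) ^ n) ^ 2 * (1 / 2) ^ n = (9 / 8) ^ n := by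
        rw [← pow_mul, mul_comm n 2, pow_mul, ← mul_pow]; norm_num
      have h7 : ((3 / 2 : ℝ) ^ m) ^ 2 * (1 / 2) ^ m = (9 / 8) ^ m := by
        rw [← pow_mul, mul_comm m 2, pow_mul, ← mul_pow]; norm_num
      calc (1 : ℝ) ≤ (9 / 8) ^ n * (9 / 8) ^ m := h3
        _ = ((3 / 2 : ℝ) ^ n) ^ 2 * ((3 / 2 : ℝ) ^ m) ^ 2 * ((1 / 2 : ℝ) ^ n * (1 / 2) ^ m) := by
            rw [← h6, ← h7]; ring
        _ ≤ ((3 / 2 : ℝ) ^ n) ^ 2 * ((3 / 2 : ℝ) ^ m) ^ 2 * (max a b) ^ 2 := by
            apply mul_le_mul_of_nonneg_left _ (by positivity)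
            linarith [mul_pos hn0 hm0]
        _ = ((3 / 2 : ℝ) ^ n * (3 / 2) ^ m * max a b) ^ 2 := by ring
    have h8 : 0 ≤ (3 / 2 : ℝ) ^ n * (3 / 2) ^ m * max a b := by positivity
    nlinarith
  calc ENNReal.ofReal ((max a b)⁻¹) ≤ ENNReal.ofReal ((3 / 2) ^ n * (3 / 2) ^ m) :=
        ENNReal.ofReal_le_ofReal hQ
    _ = ENNReal.ofReal ((3 / 2) ^ n) * ENNReal.ofReal ((3 / 2) ^ m) :=
        ENNReal.ofReal_mul (by positivity)
    _ ≤ th s * th t := mul_le_mul' (th_ge hn2) (th_ge hm2)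

end

end Pool.Agent.R253.TI
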