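import Pool.Agent.R253.TI.Baire
import Pool.Agent.R253.TI.Theta
import Pool.Agent.R253.TI.Mu

/-!
Translation-invariant linear forms on functions with absolutely convergent Fourier series.
-/

namespace Pool.Agent.R253.TI

open Finset MeasureTheory AddCircle

noncomputable section

/-- The value of the form at the constant function `1`. -/
def cst {E : Set ℤ} (Φ : CE E →ₗ[ℂ] ℂ) : ℂ := by
  classical
  exact if h : (0 : ℤ) ∈ E then Φ ⟨fourier 0, fourier_mem_CE h⟩ else 0

theorem fourier_add_apply (k : ℤ) (t x : UnitAddCircle) :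
    fourier (T := 1) k (t + x) = fourier k t * fourier k x := by
  simp only [fourier_apply, smul_add, toCircle_add, Circle.coe_mul]

/-- The part of the difference `G - G(· + x)`. -/
theorem series_diff {S : Set ℤ} {α : ℤ → ℂ} (hα : Summable fun k => ‖α k‖)
    (h0 : ∀ k, k ∉ S → α k = 0) (x : UnitAddCircle) :
    ∃ G : CT, G ∈ CE S ∧ ∀ t, HasSum (fun k : ℤ => α k * (1 - fourier k x) * fourier k t)
      (G t - trans (-x) G t) := by
  have hs : Summable fun k : ℤ => α k • (fourier k : CT) := by
    apply Summable.of_norm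
    simpa [norm_smul, fourier_norm, -fourier_apply] using hα
  obtain ⟨G, hG⟩ := hs
  refine ⟨G, ?_, ?_⟩
  · refine (isClosed_CE S).mem_of_tendsto hG (Filter.Eventually.of_forall fun s => ?_)
    apply (CE S).sum_mem
    intro k _
    by_cases hk : k ∈ S
    · exact (CE S).smul_mem _ (fourier_mem_CE hk)
    · have h0' : α k • (fourier k : CT) = 0 := by
        ext t
        simp [h0 k hk]
      rw [h0']
      exact (CE S).zero_mem
  · intro t
    have h1 : ∀ s : UnitAddCircle, HasSum (fun k : ℤ => α k * fourier k s) (G s) := by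
      intro s
      have := (ContinuousMap.evalCLM ℂ s).hasSum hG
      exact this
    have h2 := (h1 t).sub (h1 (t + x))
    have e : trans (-x) G t = G (t + x) := by rw [trans_apply, sub_neg_eq_add]
    rw [e]
    have h3 : (fun k : ℤ => α k * (1 - fourier k x) * fourier k t)
        = fun k : ℤ => α k * fourier k t - α k * fourier k (t + x) := by
      funext k
      rw [fourier_add_apply]
      ring
    rw [h3]
    exact h2

theorem sidon_tilf {E S : Set ℤ} (hSE : S ⊆ E) (hS : IsSidon S) {Φ : CE E →ₗ[ℂ] ℂ}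
    (hΦ : IsTILF E Φ) (g : CE E) (hg : (g : CT) ∈ CE S) :
    Φ g = fourierCoeff (g : CT) 0 * cst Φ := by
  classical
  set c : ℤ → ℂ := fun k => fourierCoeff (g : CT) k with hc
  have hsum : Summable fun k : ℤ => ‖c k‖ := hS ⟨g, hg⟩
  set cE : ℤ → ENNReal := fun k => if k = 0 then 0 else ENNReal.ofReal ‖c k‖ with hcE
  have hcEtop : ∑' k, cE k ≠ ⊤ := by
    have h1 : ∑' k, cE k ≤ ∑' k, ENNReal.ofReal ‖c k‖ := by
      apply ENNReal.tsum_le_tsum
      intro k
      simp only [hcE]
      split_ifs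
      · exact bot_le
      · exact le_rfl
    rw [← ENNReal.ofReal_tsum_of_nonneg (fun k => norm_nonneg _) hsum] at h1
    exact ne_top_of_le_ne_top ENNReal.ofReal_ne_top h1
  obtain ⟨x, hx⟩ := choose_x cE (by simp [hcE]) hcEtop
  obtain ⟨y, hy⟩ := choose_x (fun k => cE k * th (k • x)) (by simp [hcE]) hx
  set A : ℤ → ℂ := fun k => 1 - fourier (T := 1) k x with hA
  set B : ℤ → ℂ := fun k => 1 - fourier (T := 1) k y with hB
  set w : ℤ → ℝ := fun k => ‖A k‖ ^ 2 + ‖B k‖ ^ 2 with hw
  have hgood : ∀ k : ℤ, k ≠ 0 → c k ≠ 0 → 0 < max ‖A k‖ ‖B k‖ ∧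
      ‖c k‖ * (max ‖A k‖ ‖B k‖)⁻¹ ≤ (cE k * th (k • x) * th (k • y)).toReal := by
    intro k hk hck
    have hterm : cE k * th (k • x) * th (k • y) ≠ ⊤ :=
      ne_top_of_le_ne_top hy (ENNReal.le_tsum k)
    have hcEk : cE k ≠ 0 := by
      simp only [hcE, if_neg hk]
      rw [Ne, ENNReal.ofReal_eq_zero, not_le]
      exact norm_pos_iff.2 hck
    have hle : ∀ z : UnitAddCircle, ‖z‖ ≤ (1 / 2 : ℝ) ^ 0 := fun z => by
      have := AddCircle.norm_le_half_period (p := (1 : ℝ)) (x := z) one_ne_zero
      rw [abs_one] at this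
      rw [pow_zero]
      linarith
    have hthne : ∀ z : UnitAddCircle, th z ≠ 0 := by
      intro z h
      have := th_ge (hle z)
      rw [h] at this
      simp at this
    have hx0 : k • x ≠ 0 := by
      intro h
      apply hterm
      rw [h, th_zero, ENNReal.mul_top hcEk, ENNReal.top_mul (hthne _)]
    have hy0 : k • y ≠ 0 := by
      intro h
      apply hterm
      rw [h, th_zero, ENNReal.mul_top (mul_ne_zero hcEk (hthne _))]
    obtain ⟨h1, h2⟩ := key_bound hx0 hy0
    have hAa : ‖A k‖ = av (k • x) := by simp only [hA, av, fourier_apply]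
    have hBb : ‖B k‖ = av (k • y) := by simp only [hB, av, fourier_apply]
    rw [hAa, hBb]
    refine ⟨h1, ?_⟩
    rw [← ENNReal.ofReal_le_iff_le_toReal hterm, ENNReal.ofReal_mul (norm_nonneg _)]
    have : ENNReal.ofReal ‖c k‖ = cE k := by simp only [hcE, if_neg hk]
    rw [this, mul_assoc]
    exact mul_le_mul' le_rfl h2
  have hsumT : Summable fun k : ℤ => (cE k * th (k • x) * th (k • y)).toReal :=
    ENNReal.summable_toReal hy
  set α : ℤ → ℂ := fun k => if k = 0 then 0 else c k * (starRingEnd ℂ (A k)) / (w k : ℂ) with hα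
  set β : ℤ → ℂ := fun k => if k = 0 then 0 else c k * (starRingEnd ℂ (B k)) / (w k : ℂ) with hβ
  have hab : ∀ a b : ℝ, 0 ≤ a → 0 ≤ b → 0 < max a b → a / (a ^ 2 + b ^ 2) ≤ (max a b)⁻¹ := by
    intro a b ha hb hM
    have hpos : 0 < a ^ 2 + b ^ 2 := by
      rcases lt_max_iff.1 hM with h | h <;> positivity
    rw [div_le_iff₀ hpos, inv_mul_eq_div, le_div_iff₀ hM]
    rcases max_cases a b with ⟨h, _⟩ | ⟨h, h'⟩ <;> rw [h] <;> nlinarith
  have hαb : ∀ k, ‖α k‖ ≤ (cE k * th (k • x) * th (k • y)).toReal := by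
    intro k
    by_cases hk : k = 0
    · simp only [hα, if_pos hk, norm_zero]
      exact ENNReal.toReal_nonneg
    · by_cases hck : c k = 0
      · simp only [hα, if_neg hk, hck, zero_mul, zero_div, norm_zero]
        exact ENNReal.toReal_nonneg
      · obtain ⟨h1, h2⟩ := hgood k hk hck
        refine le_trans ?_ h2
        simp only [hα, if_neg hk]
        rw [norm_div, norm_mul, RCLike.norm_conj, Complex.norm_real, Real.norm_eq_abs,
          abs_of_nonneg (by positivity : 0 ≤ w k), mul_div_assoc]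
        exact mul_le_mul_of_nonneg_left (hab _ _ (norm_nonneg _) (norm_nonneg _) h1) (norm_nonneg _)
  have hβb : ∀ k, ‖β k‖ ≤ (cE k * th (k • x) * th (k • y)).toReal := by
    intro k
    by_cases hk : k = 0
    · simp only [hβ, if_pos hk, norm_zero]
      exact ENNReal.toReal_nonneg
    · by_cases hck : c k = 0
      · simp only [hβ, if_neg hk, hck, zero_mul, zero_div, norm_zero]
        exact ENNReal.toReal_nonneg
      · obtain ⟨h1, h2⟩ := hgood k hk hck
        refine le_trans ?_ h2
        simp only [hβ, if_neg hk]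
        rw [norm_div, norm_mul, RCLike.norm_conj, Complex.norm_real, Real.norm_eq_abs,
          abs_of_nonneg (by positivity : 0 ≤ w k), mul_div_assoc]
        rw [max_comm] at h1 ⊢
        have := hab _ _ (norm_nonneg (B k)) (norm_nonneg (A k)) h1
        rw [add_comm] at this
        exact mul_le_mul_of_nonneg_left this (norm_nonneg _)
  have hcS : ∀ k, k ∉ S → c k = 0 := fun k hk => hg k hk
  have hα0 : ∀ k, k ∉ S → α k = 0 := by
    intro k hk
    simp only [hα, hcS k hk, zero_mul, zero_div, ite_self]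
  have hβ0 : ∀ k, k ∉ S → β k = 0 := by
    intro k hk
    simp only [hβ, hcS k hk, zero_mul, zero_div, ite_self]
  obtain ⟨G1, hG1, hG1s⟩ := series_diff (Summable.of_nonneg_of_le (fun _ => norm_nonneg _) hαb hsumT)
    hα0 x
  obtain ⟨G2, hG2, hG2s⟩ := series_diff (Summable.of_nonneg_of_le (fun _ => norm_nonneg _) hβb hsumT)
    hβ0 y
  have hid : ∀ k : ℤ, k ≠ 0 → α k * A k + β k * B k = c k := by
    intro k hk
    by_cases hck : c k = 0
    · simp only [hα, hβ, if_neg hk, hck]
      ring
    · obtain ⟨h1, -⟩ := hgood k hk hck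
      have hpos : 0 < w k := by
        simp only [hw]
        rcases lt_max_iff.1 h1 with h | h <;> positivity
      have hwc : (w k : ℂ) ≠ 0 := by exact_mod_cast hpos.ne'
      simp only [hα, hβ, if_neg hk]
      have hAA : starRingEnd ℂ (A k) * A k = ((‖A k‖ ^ 2 : ℝ) : ℂ) := by
        rw [mul_comm, Complex.mul_conj, Complex.normSq_eq_norm_sq]
      have hBB : starRingEnd ℂ (B k) * B k = ((‖B k‖ ^ 2 : ℝ) : ℂ) := by
        rw [mul_comm, Complex.mul_conj, Complex.normSq_eq_norm_sq]
      have : c k * starRingEnd ℂ (A k) / (w k : ℂ) * A k + c k * starRingEnd ℂ (B k) / (w k : ℂ) * B k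
          = c k * (starRingEnd ℂ (A k) * A k + starRingEnd ℂ (B k) * B k) / (w k : ℂ) := by ring
      rw [this, hAA, hBB, div_eq_iff hwc]
      simp only [hw]
      push_cast
      ring
  have hsc : Summable (fourierCoeff (g : CT)) := Summable.of_norm hsum
  have hval : ∀ t, (g : CT) t = c 0 + (G1 t - trans (-x) G1 t) + (G2 t - trans (-y) G2 t) := by
    intro t
    have h1 := has_pointwise_sum_fourier_series_of_summable hsc t
    have h2 := h1.sub ((hG1s t).add (hG2s t))
    have h3 : HasSum (fun k : ℤ => if k = 0 then c 0 else 0) (c 0) := hasSum_ite_eq 0 (c 0)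
    have h4 : (fun k : ℤ => fourierCoeff (g : CT) k • fourier (T := 1) k t -
        (α k * (1 - fourier k x) * fourier k t + β k * (1 - fourier k y) * fourier k t))
        = fun k : ℤ => if k = 0 then c 0 else 0 := by
      ext k
      by_cases hk : k = 0
      · subst hk
        simp only [hα, hβ, if_pos]
        rw [fourier_zero]
        simp [hc]
      · rw [if_neg hk, smul_eq_mul]
        have := hid k hk
        have e : fourierCoeff (g : CT) k = c k := rfl
        rw [e, ← this]
        simp only [hA, hB]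
        ring
    rw [h4] at h2
    have h5 := h2.unique h3
    linear_combination h5
  have hG1E : G1 ∈ CE E := CE_mono hSE hG1
  have hG2E : G2 ∈ CE E := CE_mono hSE hG2
  have hdiff : ∀ (a : UnitAddCircle) (u v : CE E), (∀ t, (v : CT) t = (u : CT) (t - a)) →
      Φ (u - v) = 0 := by
    intro a u v huv
    have h1 := LinearMap.map_sub Φ u v
    have h2 : Φ u - Φ v = 0 := by rw [hΦ a u v huv, sub_self]
    exact h1.trans h2
  have hz1 : Φ (⟨G1, hG1E⟩ - ⟨trans (-x) G1, trans_mem hG1E _⟩) = 0 :=
    hdiff (-x) _ _ fun t => rfl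
  have hz2 : Φ (⟨G2, hG2E⟩ - ⟨trans (-y) G2, trans_mem hG2E _⟩) = 0 :=
    hdiff (-y) _ _ fun t => rfl
  by_cases h0 : (0 : ℤ) ∈ E
  · have e : g = c 0 • (⟨fourier 0, fourier_mem_CE h0⟩ : CE E)
        + (⟨G1, hG1E⟩ - ⟨trans (-x) G1, trans_mem hG1E _⟩)
        + (⟨G2, hG2E⟩ - ⟨trans (-y) G2, trans_mem hG2E _⟩) := by
      apply Subtype.ext
      ext t
      rw [hval t]
      simp [-fourier_apply, fourier_zero, trans_apply]
    rw [e, map_add, map_add, hz1, hz2, map_smul, add_zero, add_zero, smul_eq_mul, ← e]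
    simp only [cst, dif_pos h0, hc]
  · have hc0 : c 0 = 0 := hcS 0 fun h => h0 (hSE h)
    have e : g = (⟨G1, hG1E⟩ - ⟨trans (-x) G1, trans_mem hG1E _⟩)
        + (⟨G2, hG2E⟩ - ⟨trans (-y) G2, trans_mem hG2E _⟩) := by
      apply Subtype.ext
      ext t
      rw [hval t, hc0]
      simp [trans_apply]
    rw [e, map_add, hz1, hz2]
    simp only [cst, dif_neg h0, mul_zero, add_zero]

end

end Pool.Agent.R253.TI
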